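import Pool.Agent.Work.MP_f94384_co.Flag7.Rep

/-!
# Sums over the permutations of the positions as sums over placements
-/

set_option autoImplicit false

open Finset

namespace Pool.Agent.Work.MP_f94384_co.Flag

/-- the placement given by a list -/
def gt (t : List ℕ) (a : ℕ) : ℕ := t.getD a 0

/-- the number with the digits `t`, base 16 -/
def dc (t : List ℕ) : ℕ := t.foldl (fun s a => 16 * s + a) 0

/-- the list is strictly increasing -/
def incr : List ℕ → Bool
  | [] => true
  | a :: l => (match l with
    | [] => true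
    | b :: _ => decide (a < b)) && incr l

/-- all elements of the list are different -/
def ndup : List ℕ → Bool
  | [] => true
  | a :: l => (l.all fun b => !(a == b)) && ndup l

/-- `T` is a list of placements of `N` positions, one for each class modulo permutations of the
first `k` positions: the values at these positions are increasing. -/
def Tr (N k : ℕ) (T : List (List ℕ)) : Bool :=
  (T.all fun t => (t.length == N) && (t.all fun a => decide (a < N)) && ndup t && incr (t.take k)) &&
  incr (T.map dc) && (T.length * k.factorial == N.factorial)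

theorem incr_pairwise {l : List ℕ} (h : incr l = true) : l.Pairwise (· < ·) := by
  induction l with
  | nil => exact List.Pairwise.nil
  | cons a l ih =>
    unfold incr at h
    rw [Bool.and_eq_true] at h
    have ih' := ih h.2
    refine List.Pairwise.cons ?_ ih'
    cases l with
    | nil => simp
    | cons b l =>
      have hab : a < b := by simpa using h.1
      intro c hc
      rw [List.pairwise_cons] at ih'
      rw [List.mem_cons] at hc
      rcases hc with rfl | hc
      · exact hab
      · exact hab.trans (ih'.1 c hc)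

theorem ndup_nodup {l : List ℕ} (h : ndup l = true) : l.Nodup := by
  induction l with
  | nil => exact List.nodup_nil
  | cons a l ih =>
    unfold ndup at h
    rw [Bool.and_eq_true, List.all_eq_true] at h
    rw [List.nodup_cons]
    refine ⟨fun ha => ?_, ih h.2⟩
    have := h.1 a ha
    simp at this

theorem gt_eq {t : List ℕ} {a : ℕ} (h : a < t.length) : gt t a = t[a] := by
  unfold gt
  rw [List.getD_eq_getElem _ _ h]

open Classical in
/-- the permutation of the positions with the given values -/
noncomputable def mkP (N : ℕ) (f : ℕ → ℕ) : Equiv.Perm (Fin N) :=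
  if h : (∀ a < N, f a < N) ∧ ∀ a < N, ∀ b < N, f a = f b → a = b then
    Equiv.ofBijective (fun a : Fin N => (⟨f a, h.1 a a.2⟩ : Fin N))
      (Finite.injective_iff_bijective.1 fun a b hab =>
        Fin.ext (h.2 a a.2 b b.2 (by simpa using hab)))
  else 1

theorem px_mkP {N : ℕ} {f : ℕ → ℕ} (h1 : ∀ a < N, f a < N)
    (h2 : ∀ a < N, ∀ b < N, f a = f b → a = b) (a : ℕ) (ha : a < N) : px (mkP N f) a = f a := by
  unfold px mkP
  rw [dif_pos ha, dif_pos ⟨h1, h2⟩]
  rfl

theorem px_lt_of_le {N k : ℕ} (hk : k ≤ N) (σ : Equiv.Perm (Fin k)) (a : ℕ) (ha : a < N) :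
    px σ a < N := by
  by_cases h : a < k
  · exact (PP2_px_lt σ a h).trans_le hk
  · unfold px
    rw [dif_neg h]
    exact ha

theorem px_inv {k : ℕ} (σ : Equiv.Perm (Fin k)) (a : ℕ) : px σ⁻¹ (px σ a) = a := by
  rw [← PP2_px_mul, inv_mul_cancel]
  unfold px
  split_ifs <;> rfl

theorem px_inj {k : ℕ} (σ : Equiv.Perm (Fin k)) {a b : ℕ} (h : px σ a = px σ b) : a = b := by
  rw [← px_inv σ a, h, px_inv]

theorem px_ge {k : ℕ} (σ : Equiv.Perm (Fin k)) {a : ℕ} (h : k ≤ a) : px σ a = a := by
  unfold px
  rw [dif_neg (by omega)]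

/-- Sum over permutations of the positions. -/
theorem sum_tr {N k : ℕ} (hk : k ≤ N) {T : List (List ℕ)} (hT : Tr N k T = true)
    (F : (ℕ → ℕ) → ℤ) (hloc : ∀ l l' : ℕ → ℕ, (∀ a < N, l a = l' a) → F l = F l')
    (hinv : ∀ (σ : Equiv.Perm (Fin k)) (l : ℕ → ℕ), F (l ∘ px σ) = F l) :
    ∑ π : Equiv.Perm (Fin N), F (px π) = (k.factorial : ℤ) * (T.map fun t => F (gt t)).sum := by
  classical
  unfold Tr at hT
  simp only [Bool.and_eq_true, List.all_eq_true, beq_iff_eq, decide_eq_true_eq] at hT
  obtain ⟨⟨hall, hinc⟩, hcard⟩ := hT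
  have hinc' := incr_pairwise hinc
  -- each placement is injective
  have hlt : ∀ t ∈ T, ∀ a < N, gt t a < N := by
    intro t ht a ha
    obtain ⟨⟨⟨h1, h2⟩, _⟩, _⟩ := hall t ht
    rw [gt_eq (by omega)]
    exact h2 _ (List.getElem_mem _)
  have hinj : ∀ t ∈ T, ∀ a < N, ∀ b < N, gt t a = gt t b → a = b := by
    intro t ht a ha b hb hab
    obtain ⟨⟨⟨h1, h2⟩, h3⟩, _⟩ := hall t ht
    rw [gt_eq (by omega), gt_eq (by omega)] at hab
    exact (List.Nodup.getElem_inj_iff (ndup_nodup h3)).1 hab
  set Φ : Fin T.length × Equiv.Perm (Fin k) → Equiv.Perm (Fin N) :=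
    fun x => mkP N (gt (T.get x.1) ∘ px x.2) with hΦ
  have hpx : ∀ x, ∀ a < N, px (Φ x) a = gt (T.get x.1) (px x.2 a) := by
    intro x a ha
    have hm : T.get x.1 ∈ T := List.get_mem _ _
    refine px_mkP (fun a ha => hlt _ hm _ (px_lt_of_le hk _ _ ha)) (fun a ha b hb hab => ?_) a ha
    exact px_inj x.2 (hinj _ hm _ (px_lt_of_le hk _ _ ha) _ (px_lt_of_le hk _ _ hb) hab)
  have hΦinj : Function.Injective Φ := by
    rintro ⟨m, σ⟩ ⟨m', σ'⟩ h
    have hv : ∀ a < N, gt (T.get m) (px σ a) = gt (T.get m') (px σ' a) := by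
      intro a ha
      rw [← hpx ⟨m, σ⟩ a ha, ← hpx ⟨m', σ'⟩ a ha, h]
    have hm : T.get m ∈ T := List.get_mem _ _
    have hm' : T.get m' ∈ T := List.get_mem _ _
    obtain ⟨⟨⟨l1, -⟩, n1⟩, i1⟩ := hall _ hm
    obtain ⟨⟨⟨l2, -⟩, n2⟩, i2⟩ := hall _ hm'
    have htake : (T.get m).take k = (T.get m').take k := by
      refine List.Perm.eq_of_pairwise' (incr_pairwise i1) (incr_pairwise i2) ?_
      rw [List.perm_ext_iff_of_nodup ((ndup_nodup n1).sublist (List.take_sublist _ _))
        ((ndup_nodup n2).sublist (List.take_sublist _ _))]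
      intro c
      have key : ∀ (t t' : List ℕ) (ρ ρ' : Equiv.Perm (Fin k)), t.length = N → t'.length = N →
          (∀ a < N, gt t (px ρ a) = gt t' (px ρ' a)) → c ∈ t.take k → c ∈ t'.take k := by
        intro t t' ρ ρ' hl hl' hv hc
        rw [List.mem_iff_getElem] at hc
        obtain ⟨a, ha, rfl⟩ := hc
        have ha' : a < k := by
          rw [List.length_take] at ha
          omega
        have hb := PP2_px_lt ρ⁻¹ a ha'
        have hb' := PP2_px_lt ρ' _ hb
        have e := hv (px ρ⁻¹ a) (by omega)
        have e2 : px ρ (px ρ⁻¹ a) = a := by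
          have := px_inv ρ⁻¹ a
          rwa [inv_inv] at this
        rw [e2, gt_eq (by omega), gt_eq (by omega)] at e
        rw [List.getElem_take, e, List.mem_iff_getElem]
        refine ⟨px ρ' (px ρ⁻¹ a), by rw [List.length_take]; omega, by rw [List.getElem_take]⟩
      exact ⟨key _ _ σ σ' l1 l2 hv, key _ _ σ' σ l2 l1 fun a ha => (hv a ha).symm⟩
    have hT' : T.get m = T.get m' := by
      refine List.ext_getElem (by rw [l1, l2]) fun a ha ha' => ?_
      rcases Nat.lt_or_ge a k with h | h
      · have : ((T.get m).take k).getD a 0 = ((T.get m').take k).getD a 0 := by rw [htake]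
        rw [List.getD_eq_getElem _ _ (by rw [List.length_take]; omega),
          List.getD_eq_getElem _ _ (by rw [List.length_take]; omega), List.getElem_take,
          List.getElem_take] at this
        exact this
      · have := hv a (by omega)
        rw [px_ge σ h, px_ge σ' h, gt_eq ha, gt_eq ha'] at this
        exact this
    have hmm : m = m' := by
      rcases lt_trichotomy m m' with h | h | h
      · have := List.pairwise_iff_getElem.1 hinc' m m' (by simp) (by simp) h
        simp only [List.getElem_map] at this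
        have e : T[(m : ℕ)] = T[(m' : ℕ)] := hT'
        rw [e] at this
        exact absurd this (lt_irrefl _)
      · exact h
      · have := List.pairwise_iff_getElem.1 hinc' m' m (by simp) (by simp) h
        simp only [List.getElem_map] at this
        have e : T[(m : ℕ)] = T[(m' : ℕ)] := hT'
        rw [e] at this
        exact absurd this (lt_irrefl _)
    subst hmm
    have hσ : σ = σ' := by
      apply Equiv.ext
      intro a
      have e := hv a (by omega)
      have := hinj _ hm _ (px_lt_of_le hk _ _ (by omega)) _ (px_lt_of_le hk _ _ (by omega)) e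
      rw [PP2_px_coe, PP2_px_coe] at this
      exact Fin.ext this
    rw [hσ]
  have hbij : Function.Bijective Φ := by
    rw [Fintype.bijective_iff_injective_and_card]
    refine ⟨hΦinj, ?_⟩
    rw [Fintype.card_prod, Fintype.card_perm, Fintype.card_perm, Fintype.card_fin,
      Fintype.card_fin, Fintype.card_fin]
    exact hcard
  rw [← hbij.sum_comp (fun π => F (px π)), Fintype.sum_prod_type]
  have h1 : ∀ (m : Fin T.length) (σ : Equiv.Perm (Fin k)), F (px (Φ (m, σ))) = F (gt (T.get m)) := by
    intro m σ
    rw [← hinv σ (gt (T.get m))]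
    exact hloc _ _ (fun a ha => hpx (m, σ) a ha)
  simp only [h1]
  rw [Finset.sum_congr rfl (fun m _ => by
    rw [Finset.sum_const, Finset.card_univ, Fintype.card_perm, Fintype.card_fin, nsmul_eq_mul] :
      ∀ m ∈ (univ : Finset (Fin T.length)), ∑ σ : Equiv.Perm (Fin k), F (gt (T.get m)) =
        (k.factorial : ℤ) * F (gt (T.get m))), ← Finset.mul_sum]
  congr 1
  rw [← List.sum_ofFn]
  congr 1
  conv_rhs => rw [← List.ofFn_get T, List.map_ofFn]
  rfl

end Pool.Agent.Work.MP_f94384_co.Flag
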