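import Pool.Agent.Work.MP_f94384_co.Flag7.HS

/-!
# The Higman-Sims graph, item B: the smallest eigenvalue is at least `-8`
-/

set_option autoImplicit false

open Finset

namespace Pool.Agent.Work.MP_f94384_co.HS

/-- the adjacency matrix -/
noncomputable def B_w (a b : ℕ) : ℝ := if ad a b = true then 1 else 0

lemma B_symm (hA : SA) {a b : ℕ} (ha : a ∈ range 100) (hb : b ∈ range 100) :
    B_w a b = B_w b a := by
  unfold B_w
  rw [hA.1 a (mem_range.1 ha) b (mem_range.1 hb)]

lemma B_sq (hA : SA) {a b : ℕ} (ha : a ∈ range 100) (hb : b ∈ range 100) :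
    ∑ k ∈ range 100, B_w a k * B_w k b =
      16 * (if a = b then 1 else 0) + 6 - 6 * B_w a b := by
  have h := hA.2.2 a (mem_range.1 ha) b (mem_range.1 hb)
  have h1 : ∑ k ∈ range 100, B_w a k * B_w k b =
      ((∑ k ∈ range 100, if ad a k = true ∧ ad k b = true then 1 else 0 : ℕ) : ℝ) := by
    rw [Nat.cast_sum]
    refine sum_congr rfl fun k _ => ?_
    unfold B_w
    by_cases h1 : ad a k = true <;> by_cases h2 : ad k b = true <;> simp [h1, h2]
  rw [h1, h]
  unfold B_w
  by_cases hab : a = b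
  · subst hab
    rw [hA.2.1 a (mem_range.1 ha)]
    norm_num
  · by_cases h2 : ad a b = true
    · simp [hab, h2]
    · simp [hab, h2]

lemma B_row (hA : SA) {a : ℕ} (ha : a ∈ range 100) : ∑ k ∈ range 100, B_w a k = 22 := by
  have h := B_sq hA ha ha
  have h0 : B_w a a = 0 := by
    unfold B_w
    rw [hA.2.1 a (mem_range.1 ha)]
    simp
  rw [h0] at h
  have h1 : ∑ k ∈ range 100, B_w a k = ∑ k ∈ range 100, B_w a k * B_w k a := by
    refine sum_congr rfl fun k hk => ?_
    rw [← B_symm hA ha hk]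
    unfold B_w
    by_cases h1 : ad a k = true <;> simp [h1]
  rw [h1, h]
  norm_num

theorem pr_B (hA : SA) : SB := by
  intro s
  obtain ⟨S1, hS1⟩ : ∃ S1 : ℝ, S1 = ∑ a ∈ range 100, s a := ⟨_, rfl⟩
  obtain ⟨S2, hS2⟩ : ∃ S2 : ℝ, S2 = ∑ a ∈ range 100, s a ^ 2 := ⟨_, rfl⟩
  obtain ⟨Q, hQ⟩ : ∃ Q : ℝ, Q = ∑ a ∈ range 100, ∑ b ∈ range 100, B_w a b * (s a * s b) :=
    ⟨_, rfl⟩
  have hQ' : (∑ a ∈ range 100, ∑ b ∈ range 100, if ad a b = true then s a * s b else 0) = Q := by
    rw [hQ]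
    refine sum_congr rfl fun a _ => sum_congr rfl fun b _ => ?_
    unfold B_w
    by_cases h1 : ad a b = true <;> simp [h1]
  rw [hQ', ← hS2]
  obtain ⟨y, hy⟩ : ∃ y : ℕ → ℝ, y = fun a => ∑ b ∈ range 100, B_w a b * s b := ⟨_, rfl⟩
  have hya : ∀ a, y a = ∑ b ∈ range 100, B_w a b * s b := fun a => by rw [hy]
  -- (1)
  have h1 : ∑ a ∈ range 100, y a = 22 * S1 := by
    simp only [hya]
    rw [sum_comm, hS1, mul_sum]
    refine sum_congr rfl fun b hb => ?_
    rw [← sum_mul]
    congr 1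
    rw [← B_row hA hb]
    exact sum_congr rfl fun a ha => B_symm hA ha hb
  -- (2)
  have h2 : ∑ a ∈ range 100, y a ^ 2 = 16 * S2 + 6 * S1 ^ 2 - 6 * Q := by
    have e1 : ∑ a ∈ range 100, y a ^ 2 = ∑ b ∈ range 100, ∑ c ∈ range 100,
        (s b * s c) * ∑ a ∈ range 100, B_w b a * B_w a c := by
      have e2 : ∀ a ∈ range 100, y a ^ 2 = ∑ b ∈ range 100, ∑ c ∈ range 100,
          (s b * s c) * (B_w b a * B_w a c) := by
        intro a ha
        rw [pow_two, hya, sum_mul_sum]
        refine sum_congr rfl fun b hb => sum_congr rfl fun c _ => ?_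
        rw [B_symm hA ha hb]
        ring
      rw [sum_congr rfl e2, sum_comm]
      refine sum_congr rfl fun b _ => ?_
      rw [sum_comm]
      refine sum_congr rfl fun c _ => ?_
      rw [mul_sum]
    rw [e1]
    have e3 : ∀ b ∈ range 100, ∑ c ∈ range 100,
        (s b * s c) * ∑ a ∈ range 100, B_w b a * B_w a c =
        16 * s b ^ 2 + 6 * (s b * S1) - 6 * ∑ c ∈ range 100, B_w b c * (s b * s c) := by
      intro b hb
      have e4 : ∀ c ∈ range 100, (s b * s c) * ∑ a ∈ range 100, B_w b a * B_w a c =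
          (if b = c then 16 * (s b * s c) else 0) + 6 * (s b * s c) -
            6 * (B_w b c * (s b * s c)) := by
        intro c hc
        rw [B_sq hA hb hc]
        by_cases h : b = c
        · simp only [h, if_true]
          ring
        · simp only [h, if_false]
          ring
      rw [sum_congr rfl e4, sum_sub_distrib, sum_add_distrib, sum_ite_eq, if_pos hb, ← mul_sum,
        ← mul_sum, ← mul_sum, ← hS1]
      ring
    rw [sum_congr rfl e3, sum_sub_distrib, sum_add_distrib, ← mul_sum, ← mul_sum, ← mul_sum,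
      ← sum_mul, ← hS1, ← hS2, ← hQ]
    ring
  -- (3)
  have h3 : ∑ a ∈ range 100, s a * y a = Q := by
    rw [hQ]
    refine sum_congr rfl fun a _ => ?_
    rw [hya, mul_sum]
    refine sum_congr rfl fun b _ => ?_
    ring
  have h4 : ∑ a ∈ range 100, (y a + 8 * s a) ^ 2 = 80 * S2 + 10 * Q + 6 * S1 ^ 2 := by
    have e : ∀ a ∈ range 100, (y a + 8 * s a) ^ 2 = y a ^ 2 + 16 * (s a * y a) + 64 * s a ^ 2 :=
      fun a _ => by ring
    rw [sum_congr rfl e, sum_add_distrib, sum_add_distrib, ← mul_sum, ← mul_sum, h2, h3, ← hS2]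
    ring
  have h5 : ∑ a ∈ range 100, (y a + 8 * s a) = 30 * S1 := by
    rw [sum_add_distrib, ← mul_sum, h1, ← hS1]
    ring
  have h6 := sq_sum_le_card_mul_sum_sq (s := range 100) (f := fun a => y a + 8 * s a)
  rw [h5, h4, card_range] at h6
  push_cast at h6
  nlinarith [sq_nonneg S1]

end Pool.Agent.Work.MP_f94384_co.HS
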