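import Pool.Agent.Work.MP_f94384_co.Flag7.HS

/-!
# Lower bound for triangle-free graphs from the blow-ups of the Higman-Sims graph
-/

set_option autoImplicit false

open Finset

namespace Pool.Agent.Work.MP_f94384_co.HS

theorem C_sum_range_mul (φ : ℕ → ℝ) (t : ℕ) :
    ∑ k ∈ range (100 * t), φ k = ∑ i ∈ range t, ∑ a ∈ range 100, φ (100 * i + a) := by
  induction t with
  | zero => simp
  | succ t ih =>
    rw [Nat.mul_succ, Finset.sum_range_add, ih,
      Finset.sum_range_succ (fun i => ∑ a ∈ range 100, φ (100 * i + a)) t]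

/-- The blow-up of the Higman-Sims graph on the vertices below `100 t`. -/
def C_graph (hA : SA) (n t : ℕ) : SimpleGraph (Fin n) where
  Adj u v := (u : ℕ) < 100 * t ∧ (v : ℕ) < 100 * t ∧ ad ((u : ℕ) % 100) ((v : ℕ) % 100) = true
  symm := ⟨fun u v h => by
    refine ⟨h.2.1, h.1, ?_⟩
    rw [hA.1 _ (Nat.mod_lt _ (by norm_num)) _ (Nat.mod_lt _ (by norm_num))]
    exact h.2.2⟩
  loopless := ⟨fun u h => by
    have h1 := hA.2.1 _ (Nat.mod_lt (u : ℕ) (show 0 < 100 by norm_num))
    rw [h1] at h
    exact Bool.false_ne_true h.2.2⟩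

theorem C_adj (hA : SA) (n t : ℕ) (u v : Fin n) :
    (C_graph hA n t).Adj u v ↔ (u : ℕ) < 100 * t ∧ (v : ℕ) < 100 * t ∧
      ad ((u : ℕ) % 100) ((v : ℕ) % 100) = true := Iff.rfl

/-- The real weight of a pair. -/
def C_A (t k l : ℕ) : ℝ :=
  if k < 100 * t ∧ l < 100 * t ∧ ad (k % 100) (l % 100) = true then 1 else 0

theorem C_W (hA : SA) (n t : ℕ) (u v : Fin n) :
    W (C_graph hA n t) u v = C_A t (u : ℕ) (v : ℕ) := by
  unfold W C_A
  by_cases h : (C_graph hA n t).Adj u v
  · rw [if_pos h, if_pos ((C_adj hA n t u v).1 h)]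
  · rw [if_neg h, if_neg (fun h' => h ((C_adj hA n t u v).2 h'))]

theorem C_cliqueFree (hA : SA) (n t : ℕ) : (C_graph hA n t).CliqueFree (2 + 1) := by
  intro s hs
  obtain ⟨u, v, w, huv, huw, hvw, -⟩ := SimpleGraph.is3Clique_iff.1 hs
  rw [C_adj] at huv huw hvw
  have hu := Nat.mod_lt (u : ℕ) (show 0 < 100 by norm_num)
  have hv := Nat.mod_lt (v : ℕ) (show 0 < 100 by norm_num)
  have hw := Nat.mod_lt (w : ℕ) (show 0 < 100 by norm_num)
  have h3 := hA.2.2 _ hu _ hv
  have hne : (u : ℕ) % 100 ≠ (v : ℕ) % 100 := by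
    intro h
    have h1 := huv.2.2
    rw [h, hA.2.1 _ hv] at h1
    exact Bool.false_ne_true h1
  rw [if_neg hne, if_pos huv.2.2] at h3
  have h4 := Finset.sum_eq_zero_iff.1 h3 ((w : ℕ) % 100) (Finset.mem_range.2 hw)
  rw [if_pos] at h4
  · exact one_ne_zero h4
  · refine ⟨huw.2.2, ?_⟩
    rw [hA.1 _ hw _ hv]
    exact hvw.2.2

/-- Sums over `Fin n` of functions supported below `100 t`. -/
theorem C_sum_fin (n t : ℕ) (hn : 100 * t ≤ n) (φ : ℕ → ℝ)
    (h0 : ∀ k, 100 * t ≤ k → φ k = 0) :
    ∑ u : Fin n, φ (u : ℕ) = ∑ i ∈ range t, ∑ a ∈ range 100, φ (100 * i + a) := by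
  rw [Fin.sum_univ_eq_sum_range φ n, ← C_sum_range_mul]
  symm
  refine Finset.sum_subset (Finset.range_mono hn) fun k _ hk => ?_
  rw [Finset.mem_range, not_lt] at hk
  exact h0 k hk

theorem C_deg_row (hA : SA) (a : ℕ) (ha : a < 100) :
    ∑ b ∈ range 100, (if ad a b = true then (1 : ℝ) else 0) = 22 := by
  have h := hA.2.2 a ha a ha
  rw [if_pos rfl] at h
  have h2 : (∑ k ∈ range 100, if ad a k = true ∧ ad k a = true then 1 else 0) =
      ∑ k ∈ range 100, if ad a k = true then 1 else 0 := by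
    refine Finset.sum_congr rfl fun k hk => ?_
    simp only [hA.1 k (Finset.mem_range.1 hk) a ha, and_self]
  rw [h2] at h
  have h3 : ((∑ k ∈ range 100, if ad a k = true then 1 else 0 : ℕ) : ℝ) = 22 := by
    rw [h]; norm_num
  push_cast at h3
  exact h3

theorem C_A_val (t i j a b : ℕ) (hi : i < t) (hj : j < t) (ha : a < 100) (hb : b < 100) :
    C_A t (100 * i + a) (100 * j + b) = if ad a b = true then 1 else 0 := by
  have e1 : (100 * i + a) % 100 = a := by omega
  have e2 : (100 * j + b) % 100 = b := by omega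
  have l1 : 100 * i + a < 100 * t := by omega
  have l2 : 100 * j + b < 100 * t := by omega
  unfold C_A
  rw [e1, e2]
  by_cases h : ad a b = true
  · rw [if_pos ⟨l1, l2, h⟩, if_pos h]
  · rw [if_neg (fun h' => h h'.2.2), if_neg h]

theorem C_top (hA : SA) (n t : ℕ) (hn : 100 * t ≤ n) (ht : 1 ≤ t) :
    (22 : ℝ) * t ≤ lamMax (C_graph hA n t) := by
  have hn0 : 0 < n := by omega
  obtain ⟨-, -, -, -, -, htop⟩ := top_facts (C_graph hA n t) ⟨⟨0, hn0⟩, Finset.mem_univ _⟩
  set x : Fin n → ℝ := fun u => if (u : ℕ) < 100 * t then 1 else 0 with hx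
  have hdeg : ∀ v, deg (C_graph hA n t) x v univ = 22 * t * x v := by
    intro v
    have e : deg (C_graph hA n t) x v univ =
        ∑ u : Fin n, (fun k : ℕ => C_A t (v : ℕ) k * (if k < 100 * t then 1 else 0)) (u : ℕ) := by
      unfold deg
      exact Finset.sum_congr rfl fun u _ => by rw [C_W]
    rw [e, C_sum_fin n t hn (fun k : ℕ => C_A t (v : ℕ) k * (if k < 100 * t then 1 else 0))]
    · by_cases hv : (v : ℕ) < 100 * t
      · have hxv : x v = 1 := if_pos hv
        rw [hxv, mul_one]
        have hi : (v : ℕ) / 100 < t := by omega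
        have ha : (v : ℕ) % 100 < 100 := Nat.mod_lt _ (by norm_num)
        have hva : (v : ℕ) = 100 * ((v : ℕ) / 100) + (v : ℕ) % 100 := by omega
        have hin : ∀ i ∈ range t, ∑ a ∈ range 100,
            (fun k : ℕ => C_A t (v : ℕ) k * (if k < 100 * t then 1 else 0)) (100 * i + a) =
              (22 : ℝ) := by
          intro i hi'
          rw [← C_deg_row hA ((v : ℕ) % 100) ha]
          refine Finset.sum_congr rfl fun a ha' => ?_
          have l1 : 100 * i + a < 100 * t := by
            have := Finset.mem_range.1 hi'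
            have := Finset.mem_range.1 ha'
            omega
          show C_A t (v : ℕ) (100 * i + a) * (if 100 * i + a < 100 * t then 1 else 0) = _
          rw [if_pos l1, mul_one]
          conv_lhs => rw [hva]
          rw [C_A_val t _ i _ a hi (Finset.mem_range.1 hi') ha (Finset.mem_range.1 ha')]
        rw [Finset.sum_congr rfl hin, Finset.sum_const, Finset.card_range, nsmul_eq_mul]
        ring
      · have hxv : x v = 0 := if_neg hv
        rw [hxv, mul_zero]
        refine Finset.sum_eq_zero fun i _ => Finset.sum_eq_zero fun a _ => ?_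
        show C_A t (v : ℕ) (100 * i + a) * _ = 0
        unfold C_A
        rw [if_neg (fun h => hv h.1), zero_mul]
    · intro k hk
      show C_A t (v : ℕ) k * (if k < 100 * t then 1 else 0) = 0
      rw [if_neg (not_lt.2 hk), mul_zero]
  have hxne : x ≠ 0 := by
    intro h
    have h1 := congrFun h ⟨0, hn0⟩
    have h2 : x ⟨0, hn0⟩ = 1 := if_pos (by show 0 < 100 * t; omega)
    rw [h2] at h1
    exact one_ne_zero h1
  have h1 := htop x
  rw [qf_of_eig _ hdeg] at h1
  exact le_of_mul_le_mul_right h1 (sq_pos_of_ne hxne)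

theorem C_bot (hA : SA) (hB : SB) (n t : ℕ) (hn : 100 * t ≤ n) (x : Fin n → ℝ) :
    -(8 * (t : ℝ)) * sq univ x ≤ qf (C_graph hA n t) univ x := by
  classical
  set X : ℕ → ℝ := fun k => if h : k < n then x ⟨k, h⟩ else 0 with hX
  have hXu : ∀ u : Fin n, X (u : ℕ) = x u := fun u => by
    simp only [hX]
    rw [dif_pos u.2]
  have hq : qf (C_graph hA n t) univ x =
      ∑ i ∈ range t, ∑ a ∈ range 100, ∑ j ∈ range t, ∑ b ∈ range 100,
        (if ad a b = true then X (100 * i + a) * X (100 * j + b) else 0) := by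
    have e1 : qf (C_graph hA n t) univ x =
        ∑ u : Fin n, (fun k : ℕ => ∑ v : Fin n, (fun l : ℕ => C_A t k l * X k * X l) (v : ℕ))
          (u : ℕ) := by
      rw [qf_eq]
      refine Finset.sum_congr rfl fun u _ => Finset.sum_congr rfl fun v _ => ?_
      show W (C_graph hA n t) u v * x u * x v = C_A t (u : ℕ) (v : ℕ) * X (u : ℕ) * X (v : ℕ)
      rw [C_W, hXu, hXu]
    rw [e1, C_sum_fin n t hn
      (fun k : ℕ => ∑ v : Fin n, (fun l : ℕ => C_A t k l * X k * X l) (v : ℕ))]
    · refine Finset.sum_congr rfl fun i hi => Finset.sum_congr rfl fun a ha => ?_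
      show ∑ v : Fin n, (fun l : ℕ => C_A t (100 * i + a) l * X (100 * i + a) * X l) (v : ℕ) = _
      rw [C_sum_fin n t hn
        (fun l : ℕ => C_A t (100 * i + a) l * X (100 * i + a) * X l)]
      · refine Finset.sum_congr rfl fun j hj => Finset.sum_congr rfl fun b hb => ?_
        show C_A t (100 * i + a) (100 * j + b) * X (100 * i + a) * X (100 * j + b) = _
        rw [C_A_val t i j a b (Finset.mem_range.1 hi) (Finset.mem_range.1 hj)
          (Finset.mem_range.1 ha) (Finset.mem_range.1 hb)]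
        by_cases h : ad a b = true
        · rw [if_pos h, if_pos h, one_mul]
        · rw [if_neg h, if_neg h, zero_mul, zero_mul]
      · intro k hk
        show C_A t (100 * i + a) k * X (100 * i + a) * X k = 0
        unfold C_A
        rw [if_neg (fun h => absurd h.2.1 (not_lt.2 hk)), zero_mul, zero_mul]
    · intro k hk
      refine Finset.sum_eq_zero fun v _ => ?_
      show C_A t k (v : ℕ) * X k * X (v : ℕ) = 0
      unfold C_A
      rw [if_neg (fun h => absurd h.1 (not_lt.2 hk)), zero_mul, zero_mul]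
  set s : ℕ → ℝ := fun a => ∑ i ∈ range t, X (100 * i + a) with hs
  have hq2 : qf (C_graph hA n t) univ x =
      ∑ a ∈ range 100, ∑ b ∈ range 100, if ad a b = true then s a * s b else 0 := by
    rw [hq, Finset.sum_comm]
    refine Finset.sum_congr rfl fun a _ => ?_
    have e2 : ∀ i ∈ range t, (∑ j ∈ range t, ∑ b ∈ range 100,
        (if ad a b = true then X (100 * i + a) * X (100 * j + b) else 0)) =
        ∑ b ∈ range 100, ∑ j ∈ range t,
          (if ad a b = true then X (100 * i + a) * X (100 * j + b) else 0) := fun i _ =>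
      Finset.sum_comm
    rw [Finset.sum_congr rfl e2, Finset.sum_comm]
    refine Finset.sum_congr rfl fun b _ => ?_
    by_cases h : ad a b = true
    · simp only [if_pos h]
      rw [hs, Finset.sum_mul_sum]
    · simp only [if_neg h, Finset.sum_const_zero]
  have hCS : ∀ a, s a ^ 2 ≤ t * ∑ i ∈ range t, X (100 * i + a) ^ 2 := by
    intro a
    have h := sq_sum_le_card_mul_sum_sq (s := range t) (f := fun i => X (100 * i + a))
    rw [Finset.card_range] at h
    exact h
  have hle : ∑ a ∈ range 100, s a ^ 2 ≤ t * sq univ x := by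
    have e3 : ∑ a ∈ range 100, s a ^ 2 ≤
        ∑ a ∈ range 100, t * ∑ i ∈ range t, X (100 * i + a) ^ 2 :=
      Finset.sum_le_sum fun a _ => hCS a
    refine e3.trans ?_
    rw [← Finset.mul_sum, Finset.sum_comm, ← C_sum_range_mul (fun k => X k ^ 2)]
    refine mul_le_mul_of_nonneg_left ?_ (Nat.cast_nonneg t)
    have e4 : sq univ x = ∑ k ∈ range n, X k ^ 2 := by
      rw [← Fin.sum_univ_eq_sum_range (fun k => X k ^ 2) n]
      unfold sq
      exact Finset.sum_congr rfl fun u _ => by
        show x u ^ 2 = X (u : ℕ) ^ 2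
        rw [hXu]
    rw [e4]
    exact Finset.sum_le_sum_of_subset_of_nonneg (Finset.range_mono hn) fun k _ _ => sq_nonneg _
  rw [hq2]
  have hB' := hB s
  nlinarith

theorem pr_C (hA : SA) (hB : SB) : SC := by
  intro n hn
  set t := n / 100 with ht
  have htn : 100 * t ≤ n := by omega
  have hV : (univ : Finset (Fin n)).Nonempty := ⟨⟨0, hn⟩, Finset.mem_univ _⟩
  have hmem : lamMax (C_graph hA n t) + lamMin (C_graph hA n t) ∈ sums 2 n :=
    ⟨_, C_cliqueFree hA n t, rfl⟩
  refine le_trans ?_ ((f_isGreatest (by norm_num : 1 ≤ 2) n).2 hmem)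
  obtain ⟨⟨x, hx1, hx2⟩, -⟩ := bot_facts (C_graph hA n t) hV
  obtain ⟨-, -, -, -, -, htop⟩ := top_facts (C_graph hA n t) hV
  have hbot := C_bot hA hB n t htn x
  rw [hx1, hx2, mul_one] at hbot
  have h1 := htop x
  rw [hx1, hx2, mul_one] at h1
  rcases Nat.eq_zero_or_pos t with h0 | hpos
  · rw [h0] at hbot h1 ⊢
    simp only [Nat.cast_zero, mul_zero, neg_zero] at hbot ⊢
    rw [← h0] at hbot h1 ⊢
    linarith
  · have := C_top hA n t htn hpos
    linarith

end Pool.Agent.Work.MP_f94384_co.HS
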