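import Pool.Agent.Work.MP_f94384_co.Flag.Fin
import Pool.Agent.Work.MP_f94384_co.Flag.Cert4
import Pool.Agent.Work.MP_f94384_co.Flag.R4Main
import Pool.Agent.Work.MP_f94384_co.Flag7.HS_A
import Pool.Agent.Work.MP_f94384_co.Flag7.HS_B
import Pool.Agent.Work.MP_f94384_co.Flag7.HS_C

/-!
# The extremal function, from the bounds for `r = 3` and `r = 2`
-/

set_option autoImplicit false

open Finset

namespace Pool.Agent.Work.MP_f94384_co.Flag

/-- the extremal function for all `r ≥ 3`, from the bound for `r = 3` -/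
theorem fin_all3 (h3 : PB 3 (1 / 3)) {r : ℕ} (hr : 3 ≤ r) :
    (∀ n, 1 ≤ n → IsGreatest (sums r n) (f r n) ∧
      (n : ℝ) - 2 * (⌈(n : ℝ) / r⌉₊ : ℝ) ≤ f r n ∧ f r n ≤ (1 - 2 / (r : ℝ)) * n ∧
      (r ∣ n → f r n = (1 - 2 / (r : ℝ)) * n)) ∧
    Filter.Tendsto (fun n : ℕ => f r n / n) Filter.atTop (nhds (1 - 2 / (r : ℝ))) := by
  have hP : PB r (1 - 2 / (r : ℝ)) := by
    rcases Nat.lt_or_ge r 4 with h | h
    · have : r = 3 := by omega
      subst this
      have e : (1 - 2 / ((3 : ℕ) : ℝ)) = 1 / 3 := by norm_num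
      rw [e]
      exact h3
    · exact PB_all cert4 PB4 h
  exact ⟨fun n hn => ⟨f_isGreatest (by omega) n, f_lower (by omega) hn,
    f_le hP (by omega) hn, fun hd => f_eq_of_dvd' hP (by omega) hn hd⟩,
    f_tendsto' hP (by omega)⟩

/-- the extremal function for `r = 2`, from the bound for `r = 2` -/
theorem fin_two (h2 : PB 2 (7 / 50)) :
    (∀ n, 1 ≤ n → IsGreatest (sums 2 n) (f 2 n) ∧
      (14 : ℝ) * ((n / 100 : ℕ) : ℝ) ≤ f 2 n ∧ f 2 n ≤ (7 / 50 : ℝ) * n ∧
      (100 ∣ n → f 2 n = (7 / 50 : ℝ) * n)) ∧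
    Filter.Tendsto (fun n : ℕ => f 2 n / n) Filter.atTop (nhds (7 / 50 : ℝ)) := by
  have hlow : HS.SC := HS.pr_C HS.pr_A (HS.pr_B HS.pr_A)
  have hdiv : ∀ n : ℕ, (n : ℝ) - 99 ≤ 100 * ((n / 100 : ℕ) : ℝ) := by
    intro n
    have h : n ≤ 100 * (n / 100) + 99 := by omega
    have h' : ((n : ℕ) : ℝ) ≤ ((100 * (n / 100) + 99 : ℕ) : ℝ) := by exact_mod_cast h
    push_cast at h'
    linarith
  refine ⟨fun n hn => ⟨f_isGreatest (by omega) n, hlow n hn, f_le h2 (by omega) hn, ?_⟩, ?_⟩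
  · rintro ⟨t, rfl⟩
    have h1 := hlow _ hn
    rw [Nat.mul_div_cancel_left t (by norm_num : 0 < 100)] at h1
    refine le_antisymm (f_le h2 (by omega) hn) ?_
    push_cast
    linarith
  · have hl : Filter.Tendsto (fun n : ℕ => (7 / 50 : ℝ) - 14 / (n : ℝ)) Filter.atTop
        (nhds (7 / 50 : ℝ)) := by
      have := (tendsto_const_nhds (x := (7 / 50 : ℝ))).sub
        (tendsto_const_div_atTop_nhds_zero_nat (14 : ℝ))
      simpa using this
    refine tendsto_of_tendsto_of_tendsto_of_le_of_le' hl tendsto_const_nhds ?_ ?_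
    · filter_upwards [Filter.eventually_ge_atTop 1] with n hn
      have hn0 : (0 : ℝ) < n := by exact_mod_cast hn
      rw [le_div_iff₀ hn0]
      have h1 := hlow n hn
      have h2 := hdiv n
      have h3 : ((7 / 50 : ℝ) - 14 / (n : ℝ)) * n = 7 / 50 * n - 14 := by
        field_simp
      rw [h3]
      linarith
    · filter_upwards [Filter.eventually_ge_atTop 1] with n hn
      have hn0 : (0 : ℝ) < n := by exact_mod_cast hn
      rw [div_le_iff₀ hn0]
      exact f_le h2 (by omega) hn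

end Pool.Agent.Work.MP_f94384_co.Flag
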