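import Pool.Agent.Work.MP_f94384_co.Flag.Stmts

/-!
# Pattern sum certificates with several averaged points: definitions

The first `k` positions are the roots. A flag has `k + e` positions, the roots and `e` further
points. In a tuple of `k + e + e` points the first flag is at the positions `0, ..., k + e - 1`, the
second one at the images under `i2` (for usual squares and for pairs `w, w'`) or `i3` (the same point
`w = k`); with `i3` the last position `k + e + e - 1` is free and carries the factor `lambda` or `n`.
-/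

set_option autoImplicit false

open Finset

namespace Pool.Agent.Work.MP_f94384_co.Flag

/-- patterns -/
abbrev Pat : Type := ℕ → ℕ → Bool

/-- restriction of a pattern along a map of positions -/
def sub (f : ℕ → ℕ) (p : Pat) : Pat := fun a b => p (f a) (f b)

/-- positions of the second flag -/
def i2 (k e a : ℕ) : ℕ := if a < k then a else a + e

/-- positions of the second flag with the same point `w` at the position `k` -/
def i3 (k e a : ℕ) : ℕ := if a ≤ k then a else a + (e - 1)

/-- two patterns agree on the positions below `n` -/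
def Agree (n : ℕ) (p p' : Pat) : Prop := ∀ a < n, ∀ b < n, p a b = p' a b

section tables

variable {R : Type} [CommRing R]

/-- bilinear part, the first flag at `g`, the second at `g'`; `K` positions each -/
def GB (K : ℕ) (g g' : ℕ → ℕ) (Y : Pat → ℕ → ℕ → R) (Rw : Pat → ℕ → ℕ) (p : Pat) (i j : ℕ) : R :=
  ∑ c ∈ range K, ∑ c' ∈ range K,
    if i = g c ∧ j = g' c' then Y p (Rw (sub g p) c) (Rw (sub g' p) c') else 0

/-- the part standing for the factor `lambda`: the weight of the position `c` is replaced by the
weight of its neighbour at the last position -/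
def GLa (k e : ℕ) (Y : Pat → ℕ → ℕ → R) (Rw : Pat → ℕ → ℕ) (p : Pat) (i j : ℕ) : R :=
  ∑ c ∈ range (k + e), ∑ c' ∈ range (k + e),
    if i = k + e + e - 1 ∧ j = i3 k e c' ∧ p c (k + e + e - 1) = true then
      Y p (Rw p c) (Rw (sub (i3 k e) p) c') else 0

/-- usual squares -/
def GU (k e : ℕ) (Y : Pat → ℕ → ℕ → R) (Rw : Pat → ℕ → ℕ) (p : Pat) (i j : ℕ) : R :=
  GB (k + e) id (i2 k e) Y Rw p i j

/-- eigenvalue squares, multiplied by `m`; `q / m` is the constant -/
def GE (k e : ℕ) (m q : R) (Y : Pat → ℕ → ℕ → R) (Rw : Pat → ℕ → ℕ) (p : Pat) (i j : ℕ) : R :=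
  (if p k (k + e) = true then m * GB (k + e) id (i2 k e) Y Rw p i j else 0) +
    m * GLa k e Y Rw p i j - q * GB (k + e) id (i3 k e) Y Rw p i j

/-- Perron equalities; `z p` is antisymmetric, the new point is the position `K` -/
def GZ (K : ℕ) (z : Pat → ℕ → ℕ → R) (p : Pat) (i j : ℕ) : R :=
  ∑ a ∈ range K, ∑ b ∈ range K, if i = K ∧ j = b ∧ p a K = true then z p a b else 0

end tables

section kernels

variable {V : Type} [Fintype V] [DecidableEq V]

/-- the kernel on flags given by a matrix and a row function -/
noncomputable def Kr (G : SimpleGraph V) (x : V → ℝ) {K : ℕ} (Y : Pat → ℕ → ℕ → ℝ)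
    (Rw : Pat → ℕ → ℕ) (y y' : Fin K → V) : ℝ :=
  ∑ c : Fin K, ∑ c' : Fin K,
    Y (pat G y) (Rw (pat G y) c) (Rw (pat G y') c') * x (y c) * x (y' c')

/-- the kernel on the points `w` -/
noncomputable def Bg (G : SimpleGraph V) (x : V → ℝ) {k e : ℕ} (Y : Pat → ℕ → ℕ → ℝ)
    (Rw : Pat → ℕ → ℕ) (ρ : Fin k → V) (w w' : V) : ℝ :=
  ∑ z : Fin e → V, ∑ z' : Fin e → V,
    Kr G x Y Rw (Fin.append ρ (Fin.cons w z : Fin (e + 1) → V))
      (Fin.append ρ (Fin.cons w' z' : Fin (e + 1) → V))

end kernels

/-- the matrix depends only on the pattern of the roots, the rows only on the pattern of the flag -/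
structure Local {R : Type} (k K : ℕ) (Y : Pat → ℕ → ℕ → R) (Rw : Pat → ℕ → ℕ) : Prop where
  Y : ∀ p p', Agree k p p' → Y p = Y p'
  Rw : ∀ p p', Agree K p p' → ∀ c < K, Rw p c = Rw p' c

end Pool.Agent.Work.MP_f94384_co.Flag
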