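import Pool.Agent.Work.MP_f94384_co.Flag7.Gen

/-!
# Pattern sum certificates with several averaged points: evaluation
-/

set_option autoImplicit false
set_option linter.unusedSectionVars false
set_option linter.unusedDecidableInType false
set_option linter.unusedFintypeInType false

open Finset

namespace Pool.Agent.Work.MP_f94384_co.Flag

section

variable {V : Type} [Fintype V] [DecidableEq V]

theorem Agree.symm' {n : ℕ} {p p' : Pat} (h : Agree n p p') : Agree n p' p :=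
  fun a ha b hb => (h a ha b hb).symm

theorem Agree.trans' {n : ℕ} {p p' p'' : Pat} (h : Agree n p p') (h' : Agree n p' p'') :
    Agree n p p'' :=
  fun a ha b hb => (h a ha b hb).trans (h' a ha b hb)

theorem Agree.mono {n m : ℕ} (hm : m ≤ n) {p p' : Pat} (h : Agree n p p') : Agree m p p' :=
  fun a ha b hb => h a (ha.trans_le hm) b (hb.trans_le hm)

/-- the pattern of a composition -/
theorem pat_comp (G : SimpleGraph V) {N K : ℕ} (v : Fin N → V) (y : Fin K → V) (f : ℕ → ℕ)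
    (hf : ∀ c (hc : c < K), ∃ h : f c < N, v ⟨f c, h⟩ = y ⟨c, hc⟩) :
    Agree K (sub f (pat G v)) (pat G y) := by
  intro a ha b hb
  obtain ⟨h1, h2⟩ := hf a ha
  obtain ⟨h3, h4⟩ := hf b hb
  unfold sub pat
  rw [dif_pos ⟨h1, h3⟩, dif_pos ⟨ha, hb⟩, h2, h4]

/-- a sum with an indicator for two positions -/
theorem sum_ind {N : ℕ} (x : Fin N → ℝ) (a b : ℕ) (ha : a < N) (hb : b < N) (r : ℝ) :
    ∑ i : Fin N, ∑ j : Fin N, (if (i : ℕ) = a ∧ (j : ℕ) = b then r else 0) * x i * x j =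
      r * x ⟨a, ha⟩ * x ⟨b, hb⟩ := by
  rw [Finset.sum_eq_single ⟨a, ha⟩]
  · rw [Finset.sum_eq_single ⟨b, hb⟩]
    · simp
    · intro j _ hj
      have : (j : ℕ) ≠ b := fun h => hj (Fin.ext h)
      simp [this]
    · intro h; exact absurd (mem_univ _) h
  · intro i _ hi
    have : (i : ℕ) ≠ a := fun h => hi (Fin.ext h)
    simp [this]
  · intro h; exact absurd (mem_univ _) h

/-- a double sum over positions of an indicator table -/
theorem sum_tab {N K : ℕ} (x : Fin N → ℝ) (g g' : ℕ → ℕ) (hg : ∀ c < K, g c < N)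
    (hg' : ∀ c < K, g' c < N) (P : ℕ → Prop) [DecidablePred P] (Q : ℕ → ℕ → ℝ) :
    ∑ i : Fin N, ∑ j : Fin N, (∑ c ∈ range K, ∑ c' ∈ range K,
      if (i : ℕ) = g c ∧ (j : ℕ) = g' c' ∧ P c then Q c c' else 0) * x i * x j =
    ∑ c : Fin K, ∑ c' : Fin K, (if P c then Q c c' else 0) * x ⟨g c, hg c c.2⟩ *
      x ⟨g' c', hg' c' c'.2⟩ := by
  have h1 : ∀ i j : Fin N, (∑ c ∈ range K, ∑ c' ∈ range K,
      if (i : ℕ) = g c ∧ (j : ℕ) = g' c' ∧ P c then Q c c' else 0) * x i * x j =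
      ∑ c : Fin K, ∑ c' : Fin K,
        (if (i : ℕ) = g c ∧ (j : ℕ) = g' c' then (if P c then Q c c' else 0) else 0) *
          x i * x j := by
    intro i j
    rw [Finset.sum_range, Finset.sum_mul, Finset.sum_mul]
    refine sum_congr rfl fun c _ => ?_
    rw [Finset.sum_range, Finset.sum_mul, Finset.sum_mul]
    refine sum_congr rfl fun c' _ => ?_
    congr 2
    by_cases h1 : (i : ℕ) = g c <;> by_cases h2 : (j : ℕ) = g' c' <;> by_cases h3 : P c <;>
      simp [h1, h2, h3]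
  rw [sum_congr rfl fun i _ => sum_congr rfl fun j _ => h1 i j]
  have h2 : ∀ i : Fin N, ∑ j : Fin N, ∑ c : Fin K, ∑ c' : Fin K,
        (if (i : ℕ) = g c ∧ (j : ℕ) = g' c' then (if P c then Q c c' else 0) else 0) *
          x i * x j = ∑ c : Fin K, ∑ c' : Fin K, ∑ j : Fin N,
        (if (i : ℕ) = g c ∧ (j : ℕ) = g' c' then (if P c then Q c c' else 0) else 0) *
          x i * x j := by
    intro i
    rw [sum_comm]
    exact sum_congr rfl fun c _ => sum_comm
  rw [sum_congr rfl fun i _ => h2 i, sum_comm]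
  refine sum_congr rfl fun c _ => ?_
  rw [sum_comm]
  refine sum_congr rfl fun c' _ => ?_
  exact sum_ind x (g c) (g' c') (hg c c.2) (hg' c' c'.2) _

/-- evaluation of the bilinear part at a tuple -/
theorem eval_GB (G : SimpleGraph V) (x : V → ℝ) {N K : ℕ} {k : ℕ} (hk : k ≤ K)
    {Y : Pat → ℕ → ℕ → ℝ} {Rw : Pat → ℕ → ℕ} (hL : Local k K Y Rw) (v : Fin N → V)
    (y y' : Fin K → V) (g g' : ℕ → ℕ) (hroot : ∀ c < k, g c = c)
    (hg : ∀ c (hc : c < K), ∃ h : g c < N, v ⟨g c, h⟩ = y ⟨c, hc⟩)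
    (hg' : ∀ c (hc : c < K), ∃ h : g' c < N, v ⟨g' c, h⟩ = y' ⟨c, hc⟩) :
    ∑ i : Fin N, ∑ j : Fin N, GB K g g' Y Rw (pat G v) i j * x (v i) * x (v j) =
      Kr G x Y Rw y y' := by
  have h1 := sum_tab (N := N) (K := K) (fun i => x (v i)) g g' (fun c hc => (hg c hc).1)
    (fun c hc => (hg' c hc).1) (fun _ => True)
    (fun c c' => Y (pat G v) (Rw (sub g (pat G v)) c) (Rw (sub g' (pat G v)) c'))
  have e1 : ∀ i j : Fin N, GB K g g' Y Rw (pat G v) i j = ∑ c ∈ range K, ∑ c' ∈ range K,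
      if (i : ℕ) = g c ∧ (j : ℕ) = g' c' ∧ True then
        Y (pat G v) (Rw (sub g (pat G v)) c) (Rw (sub g' (pat G v)) c') else 0 := by
    intro i j
    unfold GB
    simp only [and_true]
  simp only [e1]
  rw [h1]
  unfold Kr
  refine sum_congr rfl fun c _ => sum_congr rfl fun c' _ => ?_
  have a1 := pat_comp G v y g hg
  have a2 := pat_comp G v y' g' hg'
  have a3 : Agree k (pat G v) (pat G y) := by
    intro a ha b hb
    have := a1 a (ha.trans_le hk) b (hb.trans_le hk)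
    unfold sub at this
    rwa [hroot a ha, hroot b hb] at this
  rw [if_pos trivial, hL.Y _ _ a3, hL.Rw _ _ a1 c c.2, hL.Rw _ _ a2 c' c'.2,
    (hg c c.2).2, (hg' c' c'.2).2]

/-- evaluation of the part with the eigenvalue at a tuple -/
theorem eval_GLa (G : SimpleGraph V) (x : V → ℝ) {k e : ℕ}
    {Y : Pat → ℕ → ℕ → ℝ} {Rw : Pat → ℕ → ℕ} (hL : Local k (k + e) Y Rw)
    (v : Fin (k + e + e) → V) (y y' : Fin (k + e) → V) (he : 1 ≤ e) (t : V)
    (hg : ∀ c (hc : c < k + e), v ⟨c, by omega⟩ = y ⟨c, hc⟩)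
    (hg' : ∀ c (hc : c < k + e), ∃ h : i3 k e c < k + e + e, v ⟨i3 k e c, h⟩ = y' ⟨c, hc⟩)
    (ht : v ⟨k + e + e - 1, by omega⟩ = t) :
    ∑ i : Fin (k + e + e), ∑ j : Fin (k + e + e), GLa k e Y Rw (pat G v) i j * x (v i) * x (v j) =
      ∑ c : Fin (k + e), ∑ c' : Fin (k + e),
        Y (pat G y) (Rw (pat G y) c) (Rw (pat G y') c') * (W G (y c) t * x t) * x (y' c') := by
  classical
  have h1 := sum_tab (N := k + e + e) (K := k + e) (fun i => x (v i))
    (fun _ => k + e + e - 1) (i3 k e) (fun c _ => by omega)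
    (fun c hc => (hg' c hc).1) (fun c => pat G v c (k + e + e - 1) = true)
    (fun c c' => Y (pat G v) (Rw (pat G v) c) (Rw (sub (i3 k e) (pat G v)) c'))
  have e1 : ∀ i j : Fin (k + e + e), GLa k e Y Rw (pat G v) i j =
      ∑ c ∈ range (k + e), ∑ c' ∈ range (k + e),
      if (i : ℕ) = k + e + e - 1 ∧ (j : ℕ) = i3 k e c' ∧ pat G v c (k + e + e - 1) = true then
        Y (pat G v) (Rw (pat G v) c) (Rw (sub (i3 k e) (pat G v)) c') else 0 := fun i j => rfl
  simp only [e1]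
  rw [h1]
  refine sum_congr rfl fun c _ => sum_congr rfl fun c' _ => ?_
  have a1 : Agree (k + e) (pat G v) (pat G y) :=
    pat_comp G v y id (fun c hc => ⟨by simp only [id]; omega, hg c hc⟩)
  have a2 := pat_comp G v y' (i3 k e) hg'
  have a3 : Agree k (pat G v) (pat G y) := a1.mono (by omega)
  rw [hL.Y _ _ a3, hL.Rw _ _ a1 c c.2, hL.Rw _ _ a2 c' c'.2, (hg' c' c'.2).2, ht]
  have hadj : (pat G v c (k + e + e - 1) = true) ↔ G.Adj (y c) t := by
    unfold pat
    rw [dif_pos ⟨by omega, by omega⟩, hg c c.2, ht]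
    simp
  by_cases h : G.Adj (y c) t
  · rw [if_pos (hadj.2 h), W_of_adj h]
    ring
  · rw [if_neg (fun h' => h (hadj.1 h')), W_of_not_adj h]
    ring

end

/-! ### splitting of tuples -/

section

variable {V : Type} [Fintype V] [DecidableEq V]

theorem sum_append (m n : ℕ) (F : (Fin (m + n) → V) → ℝ) :
    ∑ v, F v = ∑ y : Fin m → V, ∑ z : Fin n → V, F (Fin.append y z) := by
  rw [← (Fin.appendEquiv m n).sum_comp, Fintype.sum_prod_type]
  rfl

theorem sum_cons (n : ℕ) (F : (Fin (n + 1) → V) → ℝ) :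
    ∑ v, F v = ∑ w : V, ∑ z : Fin n → V, F (Fin.cons w z : Fin (n + 1) → V) := by
  rw [← (Fin.consEquiv (fun _ : Fin (n + 1) => V)).sum_comp, Fintype.sum_prod_type]
  rfl

theorem sum_snoc (n : ℕ) (F : (Fin (n + 1) → V) → ℝ) :
    ∑ v, F v = ∑ z : Fin n → V, ∑ t : V, F (Fin.snoc (α := fun _ => V) z t) := by
  rw [← (Fin.snocEquiv (fun _ : Fin (n + 1) => V)).sum_comp, Fintype.sum_prod_type,
    Finset.sum_comm]
  rfl

theorem append_lt {m n : ℕ} (y : Fin m → V) (z : Fin n → V) (c : ℕ) (hc : c < m)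
    (h : c < m + n) : Fin.append y z ⟨c, h⟩ = y ⟨c, hc⟩ :=
  Fin.append_left y z ⟨c, hc⟩

theorem append_ge {m n : ℕ} (y : Fin m → V) (z : Fin n → V) (c : ℕ) (hc : c < n)
    (h : m + c < m + n) : Fin.append y z ⟨m + c, h⟩ = z ⟨c, hc⟩ :=
  Fin.append_right y z ⟨c, hc⟩

/-- the first flag -/
theorem flag1 {k e : ℕ} (ρ : Fin k → V) (u u' : Fin e → V) (c : ℕ) (hc : c < k + e) :
    ∃ h : id c < k + e + e, Fin.append (Fin.append ρ u) u' ⟨id c, h⟩ = Fin.append ρ u ⟨c, hc⟩ :=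
  ⟨by simp only [id]; omega, append_lt _ _ c hc _⟩

/-- the second flag -/
theorem flag2 {k e : ℕ} (ρ : Fin k → V) (u u' : Fin e → V) (c : ℕ) (hc : c < k + e) :
    ∃ h : i2 k e c < k + e + e,
      Fin.append (Fin.append ρ u) u' ⟨i2 k e c, h⟩ = Fin.append ρ u' ⟨c, hc⟩ := by
  by_cases hck : c < k
  · have h1 : i2 k e c = c := by unfold i2; rw [if_pos hck]
    refine ⟨by rw [h1]; omega, ?_⟩
    have : (⟨i2 k e c, by rw [h1]; omega⟩ : Fin (k + e + e)) = ⟨c, by omega⟩ := Fin.ext h1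
    rw [this, append_lt _ _ c (by omega), append_lt _ _ c hck, append_lt _ _ c hck]
  · obtain ⟨j, rfl⟩ : ∃ j, c = k + j := ⟨c - k, by omega⟩
    have h1 : i2 k e (k + j) = k + e + j := by unfold i2; rw [if_neg hck]; omega
    refine ⟨by rw [h1]; omega, ?_⟩
    have : (⟨i2 k e (k + j), by rw [h1]; omega⟩ : Fin (k + e + e)) = ⟨k + e + j, by omega⟩ :=
      Fin.ext h1
    rw [this, append_ge _ _ j (by omega), append_ge _ _ j (by omega)]

/-- the second flag with the same point -/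
theorem flag3 {k e : ℕ} (ρ : Fin k → V) (w : V) (z z' : Fin e → V) (t : V) (c : ℕ)
    (hc : c < k + (e + 1)) :
    ∃ h : i3 k (e + 1) c < k + (e + 1) + (e + 1),
      Fin.append (Fin.append ρ (Fin.cons w z : Fin (e + 1) → V))
        (Fin.snoc (α := fun _ => V) z' t) ⟨i3 k (e + 1) c, h⟩ =
        Fin.append ρ (Fin.cons w z' : Fin (e + 1) → V) ⟨c, hc⟩ := by
  by_cases hck : c ≤ k
  · have h1 : i3 k (e + 1) c = c := by unfold i3; rw [if_pos hck]
    refine ⟨by rw [h1]; omega, ?_⟩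
    have : (⟨i3 k (e + 1) c, by rw [h1]; omega⟩ : Fin (k + (e + 1) + (e + 1))) = ⟨c, by omega⟩ :=
      Fin.ext h1
    rw [this, append_lt _ _ c (by omega)]
    rcases hck.lt_or_eq with h | h
    · rw [append_lt _ _ c h, append_lt _ _ c h]
    · subst h
      have h2 := append_ge ρ (Fin.cons w z : Fin (e + 1) → V) 0 (by omega) (by omega)
      have h3 := append_ge ρ (Fin.cons w z' : Fin (e + 1) → V) 0 (by omega) (by omega)
      simp only [Nat.add_zero] at h2 h3
      rw [h2, h3]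
      rfl
  · obtain ⟨j, rfl⟩ : ∃ j, c = k + (j + 1) := ⟨c - k - 1, by omega⟩
    have h1 : i3 k (e + 1) (k + (j + 1)) = k + (e + 1) + j := by
      unfold i3; rw [if_neg hck]; omega
    refine ⟨by rw [h1]; omega, ?_⟩
    have : (⟨i3 k (e + 1) (k + (j + 1)), by rw [h1]; omega⟩ : Fin (k + (e + 1) + (e + 1))) =
        ⟨k + (e + 1) + j, by omega⟩ := Fin.ext h1
    rw [this, append_ge _ _ j (by omega), append_ge _ _ (j + 1) (by omega)]
    have e1 : (⟨j, by omega⟩ : Fin (e + 1)) = Fin.castSucc ⟨j, by omega⟩ := rfl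
    have e2 : (⟨j + 1, by omega⟩ : Fin (e + 1)) = Fin.succ ⟨j, by omega⟩ := rfl
    rw [e1, e2, Fin.snoc_castSucc, Fin.cons_succ]

theorem flag_last {k e : ℕ} (y : Fin (k + (e + 1)) → V) (z' : Fin e → V) (t : V) :
    Fin.append y (Fin.snoc (α := fun _ => V) z' t)
      ⟨k + (e + 1) + (e + 1) - 1, by omega⟩ = t := by
  have : (⟨k + (e + 1) + (e + 1) - 1, by omega⟩ : Fin (k + (e + 1) + (e + 1))) =
      ⟨k + (e + 1) + e, by omega⟩ :=
    Fin.ext (by show k + (e + 1) + (e + 1) - 1 = k + (e + 1) + e; omega)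
  rw [this, append_ge _ _ e (by omega)]
  exact Fin.snoc_last (α := fun _ => V) t z'

end

end Pool.Agent.Work.MP_f94384_co.Flag
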