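import Pool.Agent.Work.MP_f94384_co.Flag7.Gen1
import Pool.Agent.Work.MP_f94384_co.Flag.P_LPK

/-!
# Pattern sum certificates with several averaged points: pattern sums
-/

set_option autoImplicit false
set_option linter.unusedSectionVars false
set_option linter.unusedDecidableInType false
set_option linter.unusedFintypeInType false

open Finset

namespace Pool.Agent.Work.MP_f94384_co.Flag

section

variable {V : Type} [Fintype V] [DecidableEq V]

/-- pattern sum of the usual squares -/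
theorem Phi_GU (G : SimpleGraph V) (x : V → ℝ) {k e : ℕ} {Y : Pat → ℕ → ℕ → ℝ}
    {Rw : Pat → ℕ → ℕ} (hL : Local k (k + e) Y Rw) :
    Phi G x (k + e + e) (GU k e Y Rw) = ∑ ρ : Fin k → V, ∑ u : Fin e → V, ∑ u' : Fin e → V,
      Kr G x Y Rw (Fin.append ρ u) (Fin.append ρ u') := by
  unfold Phi
  rw [sum_append (k + e) e, sum_append k e]
  refine sum_congr rfl fun ρ _ => sum_congr rfl fun u _ => sum_congr rfl fun u' _ => ?_
  unfold GU
  exact eval_GB G x (by omega) hL _ _ _ id (i2 k e) (fun _ _ => rfl)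
    (fun c hc => flag1 ρ u u' c hc) (fun c hc => flag2 ρ u u' c hc)

theorem Phi_sub (G : SimpleGraph V) (x : V → ℝ) (N : ℕ) (A B : Pat → ℕ → ℕ → ℝ) :
    Phi G x N (fun p i j => A p i j - B p i j) = Phi G x N A - Phi G x N B := by
  unfold Phi
  rw [← sum_sub_distrib]
  refine sum_congr rfl fun v _ => ?_
  rw [← sum_sub_distrib]
  refine sum_congr rfl fun i _ => ?_
  rw [← sum_sub_distrib]
  exact sum_congr rfl fun j _ => by ring

theorem Phi_add' (G : SimpleGraph V) (x : V → ℝ) (N : ℕ) (A B : Pat → ℕ → ℕ → ℝ) :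
    Phi G x N (fun p i j => A p i j + B p i j) = Phi G x N A + Phi G x N B := by
  unfold Phi
  rw [← sum_add_distrib]
  refine sum_congr rfl fun v _ => ?_
  rw [← sum_add_distrib]
  refine sum_congr rfl fun i _ => ?_
  rw [← sum_add_distrib]
  exact sum_congr rfl fun j _ => by ring

theorem Phi_mul (G : SimpleGraph V) (x : V → ℝ) (N : ℕ) (c : ℝ) (A : Pat → ℕ → ℕ → ℝ) :
    Phi G x N (fun p i j => c * A p i j) = c * Phi G x N A := by
  unfold Phi
  rw [mul_sum]
  refine sum_congr rfl fun v _ => ?_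
  rw [mul_sum]
  refine sum_congr rfl fun i _ => ?_
  rw [mul_sum]
  exact sum_congr rfl fun j _ => by ring

/-- the part of the eigenvalue squares with the edge `w w'` -/
theorem Phi_GE1 (G : SimpleGraph V) (x : V → ℝ) {k e : ℕ} {Y : Pat → ℕ → ℕ → ℝ}
    {Rw : Pat → ℕ → ℕ} (hL : Local k (k + (e + 1)) Y Rw) :
    Phi G x (k + (e + 1) + (e + 1)) (fun p i j => if p k (k + (e + 1)) = true then
      GB (k + (e + 1)) id (i2 k (e + 1)) Y Rw p i j else 0) =
      ∑ ρ : Fin k → V, ∑ w, ∑ w', W G w w' * Bg G x (e := e) Y Rw ρ w w' := by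
  classical
  unfold Phi
  rw [sum_append (k + (e + 1)) (e + 1), sum_append k (e + 1)]
  refine sum_congr rfl fun ρ _ => ?_
  rw [sum_cons e]
  refine sum_congr rfl fun w _ => ?_
  have h1 : ∀ z : Fin e → V, ∑ u' : Fin (e + 1) → V,
      (∑ i : Fin (k + (e + 1) + (e + 1)), ∑ j : Fin (k + (e + 1) + (e + 1)),
        (if pat G (Fin.append (Fin.append ρ (Fin.cons w z : Fin (e + 1) → V)) u') k
            (k + (e + 1)) = true then
          GB (k + (e + 1)) id (i2 k (e + 1)) Y Rw
            (pat G (Fin.append (Fin.append ρ (Fin.cons w z : Fin (e + 1) → V)) u')) i j else 0) *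
          x (Fin.append (Fin.append ρ (Fin.cons w z : Fin (e + 1) → V)) u' i) *
          x (Fin.append (Fin.append ρ (Fin.cons w z : Fin (e + 1) → V)) u' j)) =
      ∑ w' : V, ∑ z' : Fin e → V, W G w w' *
        Kr G x Y Rw (Fin.append ρ (Fin.cons w z : Fin (e + 1) → V))
          (Fin.append ρ (Fin.cons w' z' : Fin (e + 1) → V)) := by
    intro z
    rw [sum_cons e]
    refine sum_congr rfl fun w' _ => sum_congr rfl fun z' _ => ?_
    set u : Fin (e + 1) → V := Fin.cons w z with hu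
    set u' : Fin (e + 1) → V := Fin.cons w' z' with hu'
    have hpat : (pat G (Fin.append (Fin.append ρ u) u') k (k + (e + 1)) = true) ↔
        G.Adj w w' := by
      have e1 : Fin.append (Fin.append ρ u) u' ⟨k, by omega⟩ = w := by
        rw [append_lt _ _ k (by omega)]
        have := append_ge ρ u 0 (by omega) (by omega)
        simp only [Nat.add_zero] at this
        rw [this, hu]
        rfl
      have e2 : Fin.append (Fin.append ρ u) u' ⟨k + (e + 1), by omega⟩ = w' := by
        have := append_ge (Fin.append ρ u) u' 0 (by omega) (by omega)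
        simp only [Nat.add_zero] at this
        rw [this, hu']
        rfl
      unfold pat
      rw [dif_pos ⟨by omega, by omega⟩, e1, e2]
      simp
    by_cases hadj : G.Adj w w'
    · simp only [if_pos (hpat.2 hadj), W_of_adj hadj, one_mul]
      exact eval_GB G x (by omega) hL _ _ _ id (i2 k (e + 1)) (fun _ _ => rfl)
        (fun c hc => flag1 ρ u u' c hc) (fun c hc => flag2 ρ u u' c hc)
    · simp [if_neg (fun h => hadj (hpat.1 h)), W_of_not_adj hadj]
  rw [sum_congr rfl fun z _ => h1 z, sum_comm]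
  refine sum_congr rfl fun w' _ => ?_
  unfold Bg
  rw [mul_sum]
  refine sum_congr rfl fun z _ => ?_
  rw [mul_sum]

/-- the part with the factor `n` -/
theorem Phi_GE3 (G : SimpleGraph V) (x : V → ℝ) {k e : ℕ} {Y : Pat → ℕ → ℕ → ℝ}
    {Rw : Pat → ℕ → ℕ} (hL : Local k (k + (e + 1)) Y Rw) :
    Phi G x (k + (e + 1) + (e + 1)) (GB (k + (e + 1)) id (i3 k (e + 1)) Y Rw) =
      (Fintype.card V : ℝ) * ∑ ρ : Fin k → V, ∑ w, Bg G x (e := e) Y Rw ρ w w := by
  unfold Phi
  rw [sum_append (k + (e + 1)) (e + 1), sum_append k (e + 1), mul_sum]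
  refine sum_congr rfl fun ρ _ => ?_
  rw [sum_cons e, mul_sum]
  refine sum_congr rfl fun w _ => ?_
  unfold Bg
  rw [mul_sum]
  refine sum_congr rfl fun z _ => ?_
  rw [sum_snoc e, mul_sum]
  refine sum_congr rfl fun z' _ => ?_
  have h1 : ∀ t : V, (∑ i : Fin (k + (e + 1) + (e + 1)), ∑ j : Fin (k + (e + 1) + (e + 1)),
      GB (k + (e + 1)) id (i3 k (e + 1)) Y Rw
        (pat G (Fin.append (Fin.append ρ (Fin.cons w z : Fin (e + 1) → V))
          (Fin.snoc (α := fun _ => V) z' t))) i j *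
        x (Fin.append (Fin.append ρ (Fin.cons w z : Fin (e + 1) → V))
          (Fin.snoc (α := fun _ => V) z' t) i) *
        x (Fin.append (Fin.append ρ (Fin.cons w z : Fin (e + 1) → V))
          (Fin.snoc (α := fun _ => V) z' t) j)) =
      Kr G x Y Rw (Fin.append ρ (Fin.cons w z : Fin (e + 1) → V))
          (Fin.append ρ (Fin.cons w z' : Fin (e + 1) → V)) := by
    intro t
    exact eval_GB G x (by omega) hL _ _ _ id (i3 k (e + 1)) (fun _ _ => rfl)
      (fun c hc => flag1 ρ _ _ c hc) (fun c hc => flag3 ρ w z z' t c hc)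
  rw [sum_congr rfl fun t _ => h1 t, sum_const, card_univ, nsmul_eq_mul]

/-- the part with the factor `lambda` -/
theorem Phi_GE2 (G : SimpleGraph V) (x : V → ℝ) (l : ℝ) (hE : Eig G x l) {k e : ℕ}
    {Y : Pat → ℕ → ℕ → ℝ} {Rw : Pat → ℕ → ℕ} (hL : Local k (k + (e + 1)) Y Rw) :
    Phi G x (k + (e + 1) + (e + 1)) (GLa k (e + 1) Y Rw) =
      l * ∑ ρ : Fin k → V, ∑ w, Bg G x (e := e) Y Rw ρ w w := by
  unfold Phi
  rw [sum_append (k + (e + 1)) (e + 1), sum_append k (e + 1), mul_sum]
  refine sum_congr rfl fun ρ _ => ?_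
  rw [sum_cons e, mul_sum]
  refine sum_congr rfl fun w _ => ?_
  unfold Bg
  rw [mul_sum]
  refine sum_congr rfl fun z _ => ?_
  rw [sum_snoc e, mul_sum]
  refine sum_congr rfl fun z' _ => ?_
  set y : Fin (k + (e + 1)) → V := Fin.append ρ (Fin.cons w z : Fin (e + 1) → V) with hy
  set y' : Fin (k + (e + 1)) → V := Fin.append ρ (Fin.cons w z' : Fin (e + 1) → V) with hy'
  have h1 : ∀ t : V, (∑ i : Fin (k + (e + 1) + (e + 1)), ∑ j : Fin (k + (e + 1) + (e + 1)),
      GLa k (e + 1) Y Rw (pat G (Fin.append y (Fin.snoc (α := fun _ => V) z' t))) i j *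
        x (Fin.append y (Fin.snoc (α := fun _ => V) z' t) i) *
        x (Fin.append y (Fin.snoc (α := fun _ => V) z' t) j)) =
      ∑ c : Fin (k + (e + 1)), ∑ c' : Fin (k + (e + 1)),
        Y (pat G y) (Rw (pat G y) c) (Rw (pat G y') c') * (W G (y c) t * x t) * x (y' c') := by
    intro t
    refine eval_GLa G x hL _ y y' (by omega) t (fun c hc => ?_) (fun c hc => ?_) ?_
    · exact append_lt _ _ c hc _
    · exact flag3 ρ w z z' t c hc
    · exact flag_last y z' t
  rw [sum_congr rfl fun t _ => h1 t, sum_comm]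
  unfold Kr
  rw [mul_sum]
  refine sum_congr rfl fun c _ => ?_
  rw [sum_comm, mul_sum]
  refine sum_congr rfl fun c' _ => ?_
  have h2 : ∑ t : V, W G (y c) t * x t = l * x (y c) := hE (y c)
  rw [← sum_mul, ← mul_sum, h2]
  ring

/-- pattern sum of the eigenvalue squares -/
theorem Phi_GE (G : SimpleGraph V) (x : V → ℝ) (l : ℝ) (hE : Eig G x l) {k e : ℕ} (m q : ℝ)
    {Y : Pat → ℕ → ℕ → ℝ} {Rw : Pat → ℕ → ℕ} (hL : Local k (k + (e + 1)) Y Rw) :
    Phi G x (k + (e + 1) + (e + 1)) (GE k (e + 1) m q Y Rw) =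
      ∑ ρ : Fin k → V, (m * (∑ w, ∑ w', W G w w' * Bg G x (e := e) Y Rw ρ w w') +
        (m * l - q * (Fintype.card V : ℝ)) * ∑ w, Bg G x (e := e) Y Rw ρ w w) := by
  have e1 : GE k (e + 1) m q Y Rw = fun p i j =>
      (m * (if p k (k + (e + 1)) = true then
        GB (k + (e + 1)) id (i2 k (e + 1)) Y Rw p i j else 0) + m * GLa k (e + 1) Y Rw p i j) -
      q * GB (k + (e + 1)) id (i3 k (e + 1)) Y Rw p i j := by
    funext p i j
    unfold GE
    by_cases h : p k (k + (e + 1)) = true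
    · rw [if_pos h, if_pos h]
    · rw [if_neg h, if_neg h, mul_zero]
  rw [e1, Phi_sub, Phi_add', Phi_mul, Phi_mul, Phi_mul, Phi_GE1 G x hL, Phi_GE2 G x l hE hL,
    Phi_GE3 G x hL, sum_add_distrib, ← mul_sum, ← mul_sum]
  ring

/-- the Perron equalities -/
theorem Phi_GZ (G : SimpleGraph V) (x : V → ℝ) (l : ℝ) (hE : Eig G x l) {K : ℕ}
    {z : Pat → ℕ → ℕ → ℝ} (hz : ∀ p p', Agree K p p' → z p = z p')
    (ha : ∀ p a b, z p a b = -z p b a) :
    Phi G x (K + 1) (GZ K z) = 0 := by
  classical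
  unfold Phi
  rw [sum_snoc K]
  refine sum_eq_zero fun y _ => ?_
  have h1 : ∀ t : V, (∑ i : Fin (K + 1), ∑ j : Fin (K + 1),
      GZ K z (pat G (Fin.snoc (α := fun _ => V) y t)) i j *
        x (Fin.snoc (α := fun _ => V) y t i : V) * x (Fin.snoc (α := fun _ => V) y t j : V)) =
      ∑ a : Fin K, ∑ b : Fin K, z (pat G y) a b * (W G (y a) t * x t) * x (y b) := by
    intro t
    set v : Fin (K + 1) → V := Fin.snoc (α := fun _ => V) y t with hv
    have hlt : ∀ c (hc : c < K) (h : c < K + 1), v ⟨c, h⟩ = y ⟨c, hc⟩ := by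
      intro c hc h
      have : (⟨c, h⟩ : Fin (K + 1)) = Fin.castSucc ⟨c, hc⟩ := rfl
      rw [hv, this, Fin.snoc_castSucc]
    have hlast : ∀ h : K < K + 1, v ⟨K, h⟩ = t := by
      intro h
      exact Fin.snoc_last (α := fun _ => V) t y
    have h2 := sum_tab (N := K + 1) (K := K) (fun i => x (v i)) (fun _ => K) (fun c => c)
      (fun c _ => by omega) (fun c hc => by omega) (fun c => pat G v c K = true)
      (fun a b => z (pat G v) a b)
    have e1 : ∀ i j : Fin (K + 1), GZ K z (pat G v) i j = ∑ a ∈ range K, ∑ b ∈ range K,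
        if (i : ℕ) = K ∧ (j : ℕ) = b ∧ pat G v a K = true then z (pat G v) a b else 0 :=
      fun i j => rfl
    simp only [e1]
    rw [h2]
    refine sum_congr rfl fun a _ => sum_congr rfl fun b _ => ?_
    have a1 : Agree K (pat G v) (pat G y) :=
      pat_comp G v y id (fun c hc => ⟨by simp only [id]; omega, hlt c hc _⟩)
    rw [hz _ _ a1, hlast, hlt b b.2]
    have hadj : (pat G v a K = true) ↔ G.Adj (y a) t := by
      unfold pat
      rw [dif_pos ⟨by omega, by omega⟩, hlt a a.2, hlast]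
      simp
    by_cases h : G.Adj (y a) t
    · rw [if_pos (hadj.2 h), W_of_adj h]; ring
    · rw [if_neg (fun h' => h (hadj.1 h')), W_of_not_adj h]; ring
  rw [sum_congr rfl fun t _ => h1 t, sum_comm]
  have h3 : ∀ a : Fin K, ∑ t : V, ∑ b : Fin K, z (pat G y) a b * (W G (y a) t * x t) * x (y b) =
      ∑ b : Fin K, z (pat G y) a b * (l * x (y a)) * x (y b) := by
    intro a
    rw [sum_comm]
    refine sum_congr rfl fun b _ => ?_
    have h2 : ∑ t : V, W G (y a) t * x t = l * x (y a) := hE (y a)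
    rw [← sum_mul, ← mul_sum, h2]
  rw [sum_congr rfl fun a _ => h3 a]
  have h4 : ∑ a : Fin K, ∑ b : Fin K, z (pat G y) a b * (l * x (y a)) * x (y b) =
      -∑ a : Fin K, ∑ b : Fin K, z (pat G y) a b * (l * x (y a)) * x (y b) := by
    conv_lhs => rw [sum_comm]
    rw [← sum_neg_distrib]
    refine sum_congr rfl fun a _ => ?_
    rw [← sum_neg_distrib]
    refine sum_congr rfl fun b _ => ?_
    rw [ha (pat G y) b a]
    ring
  linarith

end

end Pool.Agent.Work.MP_f94384_co.Flag
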