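import Pool.Agent.Work.MP_f94384_co.Flag7.Gen2
import Pool.Agent.Work.MP_f94384_co.Flag.Asm

/-!
# Pattern sum certificates with several averaged points: soundness
-/

set_option autoImplicit false
set_option linter.unusedSectionVars false
set_option linter.unusedDecidableInType false
set_option linter.unusedFintypeInType false

open Finset

namespace Pool.Agent.Work.MP_f94384_co.Flag

/-- A term of a certificate: usual (`E = false`) or eigenvalue (`E = true`) squares with `k` roots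
and `e` further points; `Y` the matrices, `Rw` the row function, `n` the number of rows. -/
structure Term where
  E : Bool
  k : ℕ
  e : ℕ
  n : ℕ
  Y : Pat → ℕ → ℕ → ℤ
  Rw : Pat → ℕ → ℕ

/-- the table of a term -/
def Term.tab (τ : Term) (m q : ℤ) (p : Pat) (i j : ℕ) : ℤ :=
  if τ.E = true then GE τ.k τ.e m q τ.Y τ.Rw p i j else GU τ.k τ.e τ.Y τ.Rw p i j

/-- a valid term of order `N` -/
structure Term.Ok (τ : Term) (N : ℕ) : Prop where
  hN : τ.k + τ.e + τ.e = N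
  he : 1 ≤ τ.e
  loc : Local τ.k (τ.k + τ.e) τ.Y τ.Rw
  row : ∀ p, ∀ c < τ.k + τ.e, τ.Rw p c < τ.n
  psd : ∀ p, PSDn τ.n (τ.Y p)

/-- the table of a list of terms and Perron multipliers -/
def tabL (N : ℕ) (L : List Term) (m q : ℤ) (z : Pat → ℕ → ℕ → ℤ) (p : Pat) (i j : ℕ) : ℤ :=
  (L.map fun τ => τ.tab m q p i j).sum + GZ (N - 1) z p i j

/-- the squares of a term are positive somewhere -/
def Term.Strict (τ : Term) (r : ℕ) : Prop :=
  ∀ (V : Type) [Fintype V] [DecidableEq V] (G : SimpleGraph V) (x : V → ℝ) (l : ℝ),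
    G.CliqueFree (r + 1) → (∀ v, 0 ≤ x v) → (∃ v, x v ≠ 0) → Eig G x l → 0 < l →
    ∃ ρ : Fin τ.k → V, ∃ w : V,
      0 < Bg G x (e := τ.e - 1) (fun p a b => (τ.Y p a b : ℝ)) τ.Rw ρ w w

/-! ### casts -/

theorem cast_GB (K : ℕ) (g g' : ℕ → ℕ) (Y : Pat → ℕ → ℕ → ℤ) (Rw : Pat → ℕ → ℕ) (p : Pat)
    (i j : ℕ) : ((GB K g g' Y Rw p i j : ℤ) : ℝ) =
      GB K g g' (fun p a b => (Y p a b : ℝ)) Rw p i j := by
  unfold GB
  push_cast
  refine Finset.sum_congr rfl fun c _ => Finset.sum_congr rfl fun c' _ => ?_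
  split_ifs <;> simp

theorem cast_GLa (k e : ℕ) (Y : Pat → ℕ → ℕ → ℤ) (Rw : Pat → ℕ → ℕ) (p : Pat)
    (i j : ℕ) : ((GLa k e Y Rw p i j : ℤ) : ℝ) =
      GLa k e (fun p a b => (Y p a b : ℝ)) Rw p i j := by
  unfold GLa
  push_cast
  refine Finset.sum_congr rfl fun c _ => Finset.sum_congr rfl fun c' _ => ?_
  split_ifs <;> simp

theorem cast_GE (k e : ℕ) (m q : ℤ) (Y : Pat → ℕ → ℕ → ℤ) (Rw : Pat → ℕ → ℕ) (p : Pat)
    (i j : ℕ) : ((GE k e m q Y Rw p i j : ℤ) : ℝ) =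
      GE k e (m : ℝ) (q : ℝ) (fun p a b => (Y p a b : ℝ)) Rw p i j := by
  unfold GE
  split_ifs <;> push_cast <;> simp only [cast_GB, cast_GLa]

theorem cast_GU (k e : ℕ) (Y : Pat → ℕ → ℕ → ℤ) (Rw : Pat → ℕ → ℕ) (p : Pat)
    (i j : ℕ) : ((GU k e Y Rw p i j : ℤ) : ℝ) =
      GU k e (fun p a b => (Y p a b : ℝ)) Rw p i j := by
  unfold GU
  exact cast_GB _ _ _ _ _ _ _ _

theorem cast_GZ (K : ℕ) (z : Pat → ℕ → ℕ → ℤ) (p : Pat) (i j : ℕ) :
    ((GZ K z p i j : ℤ) : ℝ) = GZ K (fun p a b => (z p a b : ℝ)) p i j := by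
  unfold GZ
  push_cast
  refine Finset.sum_congr rfl fun c _ => Finset.sum_congr rfl fun c' _ => ?_
  split_ifs <;> simp

/-! ### kernels are sums of squares -/

section

variable {V : Type} [Fintype V] [DecidableEq V]

/-- the pattern of the roots in a flag -/
theorem pat_append (G : SimpleGraph V) {k e : ℕ} (ρ : Fin k → V) (u : Fin e → V) :
    Agree k (pat G (Fin.append ρ u)) (pat G ρ) :=
  pat_comp G _ ρ id (fun c hc => ⟨by simp only [id]; omega, append_lt _ _ c hc _⟩)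

theorem Kr_psd (G : SimpleGraph V) (x : V → ℝ) {k e n : ℕ} {Y : Pat → ℕ → ℕ → ℤ}
    {Rw : Pat → ℕ → ℕ} (hL : Local k (k + e) Y Rw) (hr : ∀ p, ∀ c < k + e, Rw p c < n)
    (hp : ∀ p, PSDn n (Y p)) (ρ : Fin k → V) :
    ∃ (s : ℕ) (D : ℕ → (Fin e → V) → ℝ), ∀ u u' : Fin e → V,
      Kr G x (fun p a b => (Y p a b : ℝ)) Rw (Fin.append ρ u) (Fin.append ρ u') =
        ∑ a ∈ range s, D a u * D a u' := by
  obtain ⟨s, b, hb⟩ := hp (pat G ρ)
  refine ⟨s, fun a u => ∑ c : Fin (k + e),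
    b a (Rw (pat G (Fin.append ρ u)) c) * x (Fin.append ρ u c), fun u u' => ?_⟩
  have h1 : ∀ a, (∑ c : Fin (k + e), b a (Rw (pat G (Fin.append ρ u)) c) *
      x (Fin.append ρ u c)) * (∑ c' : Fin (k + e), b a (Rw (pat G (Fin.append ρ u')) c') *
      x (Fin.append ρ u' c')) = ∑ c : Fin (k + e), ∑ c' : Fin (k + e),
      (b a (Rw (pat G (Fin.append ρ u)) c) * x (Fin.append ρ u c)) *
      (b a (Rw (pat G (Fin.append ρ u')) c') * x (Fin.append ρ u' c')) := by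
    intro a
    rw [Finset.sum_mul_sum]
  have h2 : ∑ a ∈ range s, (∑ c : Fin (k + e), b a (Rw (pat G (Fin.append ρ u)) c) *
      x (Fin.append ρ u c)) * (∑ c' : Fin (k + e), b a (Rw (pat G (Fin.append ρ u')) c') *
      x (Fin.append ρ u' c')) = ∑ c : Fin (k + e), ∑ c' : Fin (k + e), ∑ a ∈ range s,
      (b a (Rw (pat G (Fin.append ρ u)) c) * x (Fin.append ρ u c)) *
      (b a (Rw (pat G (Fin.append ρ u')) c') * x (Fin.append ρ u' c')) := by
    rw [sum_congr rfl fun a _ => h1 a, sum_comm]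
    exact sum_congr rfl fun c _ => sum_comm
  show Kr G x (fun p a b => (Y p a b : ℝ)) Rw (Fin.append ρ u) (Fin.append ρ u') =
    ∑ a ∈ range s, (∑ c : Fin (k + e), b a (Rw (pat G (Fin.append ρ u)) c) *
      x (Fin.append ρ u c)) * (∑ c' : Fin (k + e), b a (Rw (pat G (Fin.append ρ u')) c') *
      x (Fin.append ρ u' c'))
  rw [h2]
  unfold Kr
  refine sum_congr rfl fun c _ => sum_congr rfl fun c' _ => ?_
  show ((Y (pat G (Fin.append ρ u)) (Rw (pat G (Fin.append ρ u)) c)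
    (Rw (pat G (Fin.append ρ u')) c') : ℤ) : ℝ) * _ * _ = _
  rw [hL.Y _ _ (pat_append G ρ u), hb _ (hr _ c c.2) _ (hr _ c' c'.2), sum_mul, sum_mul]
  exact sum_congr rfl fun a _ => by ring

theorem Bg_PK (G : SimpleGraph V) (x : V → ℝ) {k e n : ℕ} {Y : Pat → ℕ → ℕ → ℤ}
    {Rw : Pat → ℕ → ℕ} (hL : Local k (k + (e + 1)) Y Rw)
    (hr : ∀ p, ∀ c < k + (e + 1), Rw p c < n)
    (hp : ∀ p, PSDn n (Y p)) (ρ : Fin k → V) :
    PK (Bg G x (e := e) (fun p a b => (Y p a b : ℝ)) Rw ρ) := by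
  obtain ⟨s, D, hD⟩ := Kr_psd G x hL hr hp ρ
  refine ⟨s, fun a w => ∑ z : Fin e → V, D a (Fin.cons w z : Fin (e + 1) → V), fun w w' => ?_⟩
  unfold Bg
  have h1 : ∀ z : Fin e → V, ∑ z' : Fin e → V,
      Kr G x (fun p a b => (Y p a b : ℝ)) Rw
        (Fin.append ρ (Fin.cons w z : Fin (e + 1) → V))
        (Fin.append ρ (Fin.cons w' z' : Fin (e + 1) → V)) =
      ∑ a ∈ range s, ∑ z' : Fin e → V, D a (Fin.cons w z : Fin (e + 1) → V) *
        D a (Fin.cons w' z' : Fin (e + 1) → V) := by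
    intro z
    rw [sum_comm]
    exact sum_congr rfl fun z' _ => hD _ _
  rw [sum_congr rfl fun z _ => h1 z, sum_comm]
  refine sum_congr rfl fun a _ => ?_
  rw [Finset.sum_mul_sum]

theorem GU_nonneg (G : SimpleGraph V) (x : V → ℝ) {k e n : ℕ} {Y : Pat → ℕ → ℕ → ℤ}
    {Rw : Pat → ℕ → ℕ} (hL : Local k (k + e) Y Rw) (hr : ∀ p, ∀ c < k + e, Rw p c < n)
    (hp : ∀ p, PSDn n (Y p)) :
    0 ≤ Phi G x (k + e + e) (GU k e (fun p a b => (Y p a b : ℝ)) Rw) := by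
  have hL' : Local k (k + e) (fun p a b => (Y p a b : ℝ)) Rw :=
    ⟨fun p p' h => by rw [hL.Y p p' h], hL.Rw⟩
  rw [Phi_GU G x hL']
  refine sum_nonneg fun ρ _ => ?_
  obtain ⟨s, D, hD⟩ := Kr_psd G x hL hr hp ρ
  have h1 : ∀ u : Fin e → V, ∑ u' : Fin e → V,
      Kr G x (fun p a b => (Y p a b : ℝ)) Rw (Fin.append ρ u) (Fin.append ρ u') =
      ∑ a ∈ range s, ∑ u' : Fin e → V, D a u * D a u' := by
    intro u
    rw [sum_comm]
    exact sum_congr rfl fun u' _ => hD _ _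
  rw [sum_congr rfl fun u _ => h1 u, sum_comm]
  refine sum_nonneg fun a _ => ?_
  rw [← Finset.sum_mul_sum]
  exact mul_self_nonneg _

/-- the eigenvalue squares are nonnegative, and positive if some value is -/
theorem GE_pos (G : SimpleGraph V) (x : V → ℝ) {k e n : ℕ} {Y : Pat → ℕ → ℕ → ℤ}
    {Rw : Pat → ℕ → ℕ} {l μ m q : ℝ} (hE : Eig G x l) (hm : 0 < m)
    (hδ : 0 < m * l - q * (Fintype.card V : ℝ) - m * μ)
    (hμ : ∀ g, -μ * sq univ g ≤ qf G univ g)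
    (hL : Local k (k + (e + 1)) Y Rw) (hr : ∀ p, ∀ c < k + (e + 1), Rw p c < n)
    (hp : ∀ p, PSDn n (Y p)) :
    0 ≤ Phi G x (k + (e + 1) + (e + 1)) (GE k (e + 1) m q (fun p a b => (Y p a b : ℝ)) Rw) ∧
    ((∃ ρ : Fin k → V, ∃ w : V, 0 < Bg G x (e := e) (fun p a b => (Y p a b : ℝ)) Rw ρ w w) →
    0 < Phi G x (k + (e + 1) + (e + 1)) (GE k (e + 1) m q (fun p a b => (Y p a b : ℝ)) Rw)) := by
  have hL' : Local k (k + (e + 1)) (fun p a b => (Y p a b : ℝ)) Rw :=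
    ⟨fun p p' h => by rw [hL.Y p p' h], hL.Rw⟩
  rw [Phi_GE G x l hE m q hL']
  have key : ∀ ρ : Fin k → V, (m * l - q * (Fintype.card V : ℝ) - m * μ) *
      ∑ w, Bg G x (e := e) (fun p a b => (Y p a b : ℝ)) Rw ρ w w ≤
      m * (∑ w, ∑ w', W G w w' * Bg G x (e := e) (fun p a b => (Y p a b : ℝ)) Rw ρ w w') +
      (m * l - q * (Fintype.card V : ℝ)) *
        ∑ w, Bg G x (e := e) (fun p a b => (Y p a b : ℝ)) Rw ρ w w := by
    intro ρ
    have h := (pr_LPK V G _ (Bg_PK G x hL hr hp ρ)).2.2.1 univ (-μ) hμ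
    have h' := mul_le_mul_of_nonneg_left h hm.le
    nlinarith
  have nn1 : ∀ ρ : Fin k → V, ∀ w,
      0 ≤ Bg G x (e := e) (fun p a b => (Y p a b : ℝ)) Rw ρ w w := fun ρ w =>
    (pr_LPK V G _ (Bg_PK G x hL hr hp ρ)).2.1 w
  have nn : ∀ ρ : Fin k → V, 0 ≤
      ∑ w, Bg G x (e := e) (fun p a b => (Y p a b : ℝ)) Rw ρ w w := fun ρ =>
    sum_nonneg fun w _ => nn1 ρ w
  refine ⟨?_, ?_⟩
  · refine sum_nonneg fun ρ _ => ?_
    exact (mul_nonneg hδ.le (nn ρ)).trans (key ρ)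
  · rintro ⟨ρ, w, hpos⟩
    refine sum_pos' (fun ρ _ => (mul_nonneg hδ.le (nn ρ)).trans (key ρ)) ⟨ρ, mem_univ _, ?_⟩
    refine lt_of_lt_of_le (mul_pos hδ ?_) (key ρ)
    exact sum_pos' (fun w _ => nn1 ρ w) ⟨w, mem_univ _, hpos⟩

theorem Phi_list (G : SimpleGraph V) (x : V → ℝ) (N : ℕ) (L : List Term)
    (A : Term → Pat → ℕ → ℕ → ℝ) :
    Phi G x N (fun p i j => (L.map fun τ => A τ p i j).sum) =
      (L.map fun τ => Phi G x N (A τ)).sum := by
  induction L with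
  | nil => simp [Phi]
  | cons τ L ih =>
    have e1 : (fun (p : Pat) (i j : ℕ) => ((τ :: L).map fun τ => A τ p i j).sum) =
        fun p i j => A τ p i j + (L.map fun τ => A τ p i j).sum := by
      funext p i j; simp
    rw [e1, Phi_add', ih]
    simp

/-- the table of a term, as a real table -/
theorem cast_tab (τ : Term) (m q : ℤ) (p : Pat) (i j : ℕ) :
    ((τ.tab m q p i j : ℤ) : ℝ) = if τ.E = true then
      GE τ.k τ.e (m : ℝ) (q : ℝ) (fun p a b => (τ.Y p a b : ℝ)) τ.Rw p i j else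
      GU τ.k τ.e (fun p a b => (τ.Y p a b : ℝ)) τ.Rw p i j := by
  unfold Term.tab
  split_ifs
  · exact cast_GE _ _ _ _ _ _ _ _ _
  · exact cast_GU _ _ _ _ _ _ _

theorem Term.tab_nonneg (G : SimpleGraph V) (x : V → ℝ) {τ : Term} {N : ℕ} (hτ : τ.Ok N)
    {l μ : ℝ} {m q : ℤ} (hE : Eig G x l) (hm : 0 < m)
    (hδ : 0 < (m : ℝ) * l - (q : ℝ) * (Fintype.card V : ℝ) - (m : ℝ) * μ)
    (hμ : ∀ g, -μ * sq univ g ≤ qf G univ g) :
    0 ≤ Phi G x N (fun p i j => ((τ.tab m q p i j : ℤ) : ℝ)) ∧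
    (τ.E = true → (∃ ρ : Fin τ.k → V, ∃ w : V,
      0 < Bg G x (e := τ.e - 1) (fun p a b => (τ.Y p a b : ℝ)) τ.Rw ρ w w) →
    0 < Phi G x N (fun p i j => ((τ.tab m q p i j : ℤ) : ℝ))) := by
  obtain ⟨E, k, e, n, Y, Rw⟩ := τ
  obtain ⟨hN, he, hL, hr, hp⟩ := hτ
  simp only at hN he hL hr hp ⊢
  obtain ⟨e, rfl⟩ : ∃ e', e = e' + 1 := ⟨e - 1, by omega⟩
  subst hN
  have hm' : (0 : ℝ) < m := by exact_mod_cast hm
  have e1 : (fun (p : Pat) (i j : ℕ) =>
      (((⟨E, k, e + 1, n, Y, Rw⟩ : Term).tab m q p i j : ℤ) : ℝ)) = fun p i j =>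
      if E = true then
      GE k (e + 1) (m : ℝ) (q : ℝ) (fun p a b => (Y p a b : ℝ)) Rw p i j else
      GU k (e + 1) (fun p a b => (Y p a b : ℝ)) Rw p i j := by
    funext p i j
    exact cast_tab _ m q p i j
  rw [e1]
  cases E with
  | true =>
    simp only [if_true]
    have h := GE_pos G x hE hm' hδ hμ hL hr hp
    exact ⟨h.1, fun _ h' => h.2 h'⟩
  | false =>
    simp only [Bool.false_eq_true, if_false]
    exact ⟨GU_nonneg G x hL hr hp, fun h => absurd h (by simp)⟩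

end

theorem mu_nonneg {V : Type} [Fintype V] [DecidableEq V] [Nonempty V] (G : SimpleGraph V) {μ : ℝ}
    (hμ : ∀ g, -μ * sq univ g ≤ qf G univ g) : 0 ≤ μ := by
  obtain ⟨v⟩ := ‹Nonempty V›
  have h := hμ (fun u => if u = v then 1 else 0)
  have h1 : sq univ (fun u => if u = v then (1 : ℝ) else 0) = 1 := by
    unfold sq
    simp
  have h2 : qf G univ (fun u => if u = v then (1 : ℝ) else 0) = 0 := by
    rw [qf_eq]
    refine sum_eq_zero fun u _ => sum_eq_zero fun w _ => ?_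
    by_cases hu : u = v
    · by_cases hw : w = v
      · subst hu; rw [hw, W_self]; simp
      · simp [hw]
    · simp [hu]
  rw [h1, h2] at h
  linarith

/-- soundness of a list of terms -/
theorem list_sound {N r : ℕ} {L : List Term} {m q : ℤ} {z : Pat → ℕ → ℕ → ℤ} (hN1 : 1 ≤ N)
    (hm : 0 < m) (hq : 0 ≤ q) (hOk : ∀ τ ∈ L, τ.Ok N)
    (hS : ∃ τ ∈ L, τ.E = true ∧ τ.Strict r)
    (hz : ∀ p p', Agree (N - 1) p p' → z p = z p') (hza : ∀ p a b, z p a b = -z p b a)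
    (hNP : NonPos r N (tabL N L m q z)) : PB r ((q : ℝ) / m) := by
  apply pr_RED r
  intro V _ _ G μ hG hμ
  by_contra h
  have hm' : (0 : ℝ) < m := by exact_mod_cast hm
  have hq' : (0 : ℝ) ≤ q := by exact_mod_cast hq
  obtain ⟨x, l, hx0, hx1, hE, hδ⟩ := setup G hm' h
  obtain ⟨v, hv⟩ := id hx1
  have : Nonempty V := ⟨v⟩
  have hμ0 := mu_nonneg G hμ
  have hl : 0 < l := by
    have h1 : 0 ≤ (q : ℝ) * (Fintype.card V : ℝ) := mul_nonneg hq' (Nat.cast_nonneg _)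
    have h2 : 0 ≤ (m : ℝ) * μ := mul_nonneg hm'.le hμ0
    have h3 : 0 < (m : ℝ) * l := by linarith
    exact (mul_pos_iff_of_pos_left hm').1 h3
  have hall := fun τ (hτ : τ ∈ L) => Term.tab_nonneg G x (hOk τ hτ) hE hm hδ hμ
  have hsum : 0 < (L.map fun τ => Phi G x N (fun p i j => ((τ.tab m q p i j : ℤ) : ℝ))).sum := by
    obtain ⟨τ, hτ, hτE, hτS⟩ := hS
    have hpos := (hall τ hτ).2 hτE (hτS V G x l hG hx0 hx1 hE hl)
    obtain ⟨L1, L2, rfl⟩ := List.append_of_mem hτ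
    rw [List.map_append, List.sum_append, List.map_cons, List.sum_cons]
    have a1 : 0 ≤ (L1.map fun τ => Phi G x N (fun p i j => ((τ.tab m q p i j : ℤ) : ℝ))).sum := by
      apply List.sum_nonneg
      intro y hy
      obtain ⟨τ', hτ', rfl⟩ := List.mem_map.1 hy
      exact (hall τ' (by simp [hτ'])).1
    have a2 : 0 ≤ (L2.map fun τ => Phi G x N (fun p i j => ((τ.tab m q p i j : ℤ) : ℝ))).sum := by
      apply List.sum_nonneg
      intro y hy
      obtain ⟨τ', hτ', rfl⟩ := List.mem_map.1 hy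
      exact (hall τ' (by simp [hτ'])).1
    linarith
  have hle := hNP V G x hx0 hG
  have e1 : (fun (p : Pat) (i j : ℕ) => ((tabL N L m q z p i j : ℤ) : ℝ)) = fun p i j =>
      (L.map fun τ => ((τ.tab m q p i j : ℤ) : ℝ)).sum +
      GZ (N - 1) (fun p a b => (z p a b : ℝ)) p i j := by
    funext p i j
    unfold tabL
    push_cast
    rw [cast_GZ]
    congr 1
    rw [List.map_map]
    rfl
  rw [e1, Phi_add', Phi_list G x N L (fun τ p i j => ((τ.tab m q p i j : ℤ) : ℝ))] at hle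
  have hZ : Phi G x N (GZ (N - 1) (fun p a b => (z p a b : ℝ))) = 0 := by
    obtain ⟨K, rfl⟩ : ∃ K, N = K + 1 := ⟨N - 1, by omega⟩
    exact Phi_GZ G x l hE (fun p p' h => by
      have := hz p p' h
      simp only [this]) (fun p a b => by
      simp only [hza p a b]; push_cast; rfl)
  rw [hZ] at hle
  linarith

end Pool.Agent.Work.MP_f94384_co.Flag
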