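import Pool.Agent.Work.MP_f94384_co.Flag7.Gen3

/-!
# Strict positivity of an eigenvalue square with one averaged point
-/

set_option autoImplicit false
set_option linter.unusedSectionVars false
set_option linter.unusedDecidableInType false
set_option linter.unusedFintypeInType false

open Finset

namespace Pool.Agent.Work.MP_f94384_co.Flag

/-- Pattern on `k + 2` positions: independent roots `0, ..., k-1`, the position `k` adjacent to all
roots, the position `k + 1` adjacent to all roots iff `s` and to the position `k` iff `t`. -/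
def qpat (k : ℕ) (s t : Bool) : Pat := fun a b =>
  if a < k ∧ b = k ∨ b < k ∧ a = k then true
  else if a < k ∧ b = k + 1 ∨ b < k ∧ a = k + 1 then s
  else if a = k ∧ b = k + 1 ∨ b = k ∧ a = k + 1 then t
  else false

section

variable {V : Type} [Fintype V] [DecidableEq V]

theorem exists_edge (G : SimpleGraph V) {x : V → ℝ} {l : ℝ} (hx : ∀ v, 0 ≤ x v)
    (hx1 : ∃ v, x v ≠ 0) (hE : Eig G x l) (hl : 0 < l) : ∃ u w : V, G.Adj w u ∧ 0 < x w := by
  obtain ⟨w, hw⟩ := hx1
  have hw' : 0 < x w := lt_of_le_of_ne (hx w) (Ne.symm hw)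
  have h1 : ∑ u, W G w u * x u = l * x w := hE w
  have h2 : 0 < ∑ u, W G w u * x u := by rw [h1]; exact mul_pos hl hw'
  obtain ⟨u, _, hu⟩ := Finset.exists_lt_of_sum_lt (s := univ) (f := fun _ => (0 : ℝ))
    (g := fun u => W G w u * x u) (by simpa using h2)
  refine ⟨u, w, ?_, hw'⟩
  by_contra hne
  rw [W_of_not_adj hne] at hu
  simp at hu

theorem pat_qpat (G : SimpleGraph V) {k : ℕ} (u w : V) (hadj : G.Adj w u) (z : Fin 1 → V) :
    Agree (k + 2) (pat G (Fin.append (fun _ : Fin k => u) (Fin.cons w z : Fin 2 → V)))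
      (qpat k (by classical exact decide (G.Adj (z 0) u)) (by classical exact decide (G.Adj (z 0) w))) := by
  classical
  set y := Fin.append (fun _ : Fin k => u) (Fin.cons w z : Fin 2 → V) with hy
  have h1 : ∀ c (hc : c < k) (h : c < k + 2), y ⟨c, h⟩ = u := fun c hc h =>
    append_lt _ _ c hc h
  have h2 : ∀ (h : k < k + 2), y ⟨k, h⟩ = w := by
    intro h
    have := append_ge (fun _ : Fin k => u) (Fin.cons w z : Fin 2 → V) 0 (by omega) (by omega)
    simp only [Nat.add_zero] at this
    rw [hy, this]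
    rfl
  have h3 : ∀ (h : k + 1 < k + 2), y ⟨k + 1, h⟩ = z 0 := by
    intro h
    have := append_ge (fun _ : Fin k => u) (Fin.cons w z : Fin 2 → V) 1 (by omega) (by omega)
    rw [hy, this]
    rfl
  intro a ha b hb
  unfold pat qpat
  rw [dif_pos ⟨ha, hb⟩]
  have hcase : ∀ c, c < k + 2 → c < k ∨ c = k ∨ c = k + 1 := fun c hc => by omega
  rcases hcase a ha with ha' | rfl | rfl
  · rcases hcase b hb with hb' | rfl | rfl
    · rw [h1 a ha', h1 b hb', if_neg (by omega), if_neg (by omega), if_neg (by omega)]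
      simp
    · rw [h1 a ha', h2, if_pos (by omega)]
      simpa using hadj.symm
    · rw [h1 a ha', h3, if_neg (by omega), if_pos (by omega)]
      exact decide_eq_decide.2 (G.adj_comm _ _)
  · rcases hcase b hb with hb' | rfl | rfl
    · rw [h1 b hb', h2, if_pos (by omega)]
      simpa using hadj
    · rw [if_neg (by omega), if_neg (by omega), if_neg (by omega)]
      simp
    · rw [h2, h3, if_neg (by omega), if_neg (by omega), if_pos (by omega)]
      exact decide_eq_decide.2 (G.adj_comm _ _)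
  · rcases hcase b hb with hb' | rfl | rfl
    · rw [h1 b hb', h3, if_neg (by omega), if_pos (by omega)]
    · rw [h2, h3, if_neg (by omega), if_neg (by omega), if_pos (by omega)]
    · rw [if_neg (by omega), if_neg (by omega), if_neg (by omega)]
      simp

end

/-- criterion for strictness with one averaged point -/
theorem strict2 {k n r : ℕ} {Y : Pat → ℕ → ℕ → ℤ} {Rw : Pat → ℕ → ℕ}
    (hk : 1 ≤ k)
    (hL : Local k (k + 2) Y Rw) (hr : ∀ p, ∀ c < k + 2, Rw p c < n)
    (P : ℕ → ℕ → ℤ) (hP : PSDn n P) (b : ℕ → ℤ)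
    (hY : ∀ a < n, ∀ a' < n, Y (fun _ _ => false) a a' = b a * b a' + P a a')
    (hb : ∀ s t : Bool, (r = 2 → ¬ (s = true ∧ t = true)) →
      0 < b (Rw (qpat k s t) k) ∧ ∀ c < k + 2, 0 ≤ b (Rw (qpat k s t) c)) :
    (⟨true, k, 2, n, Y, Rw⟩ : Term).Strict r := by
  classical
  intro V _ _ G x l hG hx hx1 hE hl
  obtain ⟨u, w, hadj, hw⟩ := exists_edge G hx hx1 hE hl
  have : Nonempty V := ⟨w⟩
  refine ⟨fun _ => u, w, ?_⟩
  show 0 < Bg G x (e := 1) (fun p a b => (Y p a b : ℝ)) Rw (fun _ : Fin k => u) w w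
  obtain ⟨s, β, hβ⟩ := hP
  set y : (Fin 1 → V) → Fin (k + 2) → V := fun z =>
    Fin.append (fun _ : Fin k => u) (Fin.cons w z : Fin 2 → V) with hy
  have hrow : ∀ z, ∀ c < k + 2, ∃ s t : Bool, (r = 2 → ¬ (s = true ∧ t = true)) ∧
      Rw (pat G (y z)) c = Rw (qpat k s t) c := by
    intro z c hc
    refine ⟨decide (G.Adj (z 0) u), decide (G.Adj (z 0) w), ?_, ?_⟩
    · rintro rfl ⟨h1, h2⟩
      have h1' := of_decide_eq_true h1
      have h2' := of_decide_eq_true h2
      refine hG {u, w, z 0} ?_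
      rw [SimpleGraph.is3Clique_triple_iff]
      exact ⟨hadj.symm, h1'.symm, h2'.symm⟩
    · exact hL.Rw _ _ (pat_qpat G u w hadj z) c hc
  have hrow' : ∀ z, 0 < b (Rw (pat G (y z)) k) ∧ ∀ c < k + 2, 0 ≤ b (Rw (pat G (y z)) c) := by
    intro z
    refine ⟨?_, fun c hc => ?_⟩
    · obtain ⟨s, t, hst, h⟩ := hrow z k (by omega)
      rw [h]
      exact (hb s t hst).1
    · obtain ⟨s, t, hst, h⟩ := hrow z c hc
      rw [h]
      exact (hb s t hst).2 c hc
  have hyk : ∀ z, y z ⟨k, by omega⟩ = w := by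
    intro z
    have := append_ge (fun _ : Fin k => u) (Fin.cons w z : Fin 2 → V) 0 (by omega) (by omega)
    simp only [Nat.add_zero] at this
    rw [hy]
    exact this
  -- the value of the row b
  set D : (Fin 1 → V) → ℝ := fun z => ∑ c : Fin (k + 2), (b (Rw (pat G (y z)) c) : ℝ) * x (y z c)
    with hD
  have hDpos : ∀ z, 0 < D z := by
    intro z
    refine sum_pos' (fun c _ => mul_nonneg (by exact_mod_cast (hrow' z).2 c c.2) (hx _))
      ⟨⟨k, by omega⟩, mem_univ _, ?_⟩
    rw [hyk z]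
    exact mul_pos (by exact_mod_cast (hrow' z).1) hw
  set F : ℕ → (Fin 1 → V) → ℝ := fun a z =>
    ∑ c : Fin (k + 2), β a (Rw (pat G (y z)) c) * x (y z c) with hF
  have hKr : ∀ z z', Kr G x (fun p a b => (Y p a b : ℝ)) Rw (y z) (y z') =
      D z * D z' + ∑ a ∈ range s, F a z * F a z' := by
    intro z z'
    have hYz : Y (pat G (y z)) = Y (fun _ _ => false) := by
      apply hL.Y
      intro a ha b' hb'
      have h1 := pat_qpat G (k := k) u w hadj z a (by omega) b' (by omega)
      rw [hy]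
      rw [h1]
      unfold qpat
      rw [if_neg (by omega), if_neg (by omega), if_neg (by omega)]
    unfold Kr
    have h1 : D z * D z' = ∑ c : Fin (k + 2), ∑ c' : Fin (k + 2),
        (b (Rw (pat G (y z)) c) : ℝ) * x (y z c) * ((b (Rw (pat G (y z')) c') : ℝ) *
          x (y z' c')) := by
      rw [hD]
      simp only
      rw [Finset.sum_mul_sum]
    have h2 : ∑ a ∈ range s, F a z * F a z' = ∑ c : Fin (k + 2), ∑ c' : Fin (k + 2),
        ∑ a ∈ range s, (β a (Rw (pat G (y z)) c) * x (y z c)) *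
          (β a (Rw (pat G (y z')) c') * x (y z' c')) := by
      have h3 : ∀ a, F a z * F a z' = ∑ c : Fin (k + 2), ∑ c' : Fin (k + 2),
          (β a (Rw (pat G (y z)) c) * x (y z c)) *
          (β a (Rw (pat G (y z')) c') * x (y z' c')) := by
        intro a
        rw [hF]
        simp only
        rw [Finset.sum_mul_sum]
      rw [sum_congr rfl fun a _ => h3 a, sum_comm]
      exact sum_congr rfl fun c _ => sum_comm
    rw [h1, h2, ← sum_add_distrib]
    refine sum_congr rfl fun c _ => ?_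
    rw [← sum_add_distrib]
    refine sum_congr rfl fun c' _ => ?_
    have h4 : ((Y (pat G (y z)) (Rw (pat G (y z)) c) (Rw (pat G (y z')) c') : ℤ) : ℝ) =
        (b (Rw (pat G (y z)) c) : ℝ) * b (Rw (pat G (y z')) c') +
          ∑ a ∈ range s, β a (Rw (pat G (y z)) c) * β a (Rw (pat G (y z')) c') := by
      rw [hYz, hY _ (hr _ c c.2) _ (hr _ c' c'.2), ← hβ _ (hr _ c c.2) _ (hr _ c' c'.2)]
      push_cast
      rfl
    show ((Y (pat G (y z)) (Rw (pat G (y z)) c) (Rw (pat G (y z')) c') : ℤ) : ℝ) * _ * _ = _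
    rw [h4, add_mul, add_mul, sum_mul, sum_mul]
    congr 1
    · ring
    · exact sum_congr rfl fun a _ => by ring
  unfold Bg
  have h5 : ∑ z : Fin 1 → V, ∑ z' : Fin 1 → V,
      Kr G x (fun p a b => (Y p a b : ℝ)) Rw (y z) (y z') =
      (∑ z, D z) * (∑ z, D z) + ∑ a ∈ range s, (∑ z, F a z) * (∑ z, F a z) := by
    have h6 : ∀ z, ∑ z' : Fin 1 → V, Kr G x (fun p a b => (Y p a b : ℝ)) Rw (y z) (y z') =
        D z * (∑ z', D z') + ∑ a ∈ range s, F a z * (∑ z', F a z') := by
      intro z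
      rw [sum_congr rfl fun z' _ => hKr z z', sum_add_distrib, ← mul_sum]
      congr 1
      rw [sum_comm]
      exact sum_congr rfl fun a _ => by rw [mul_sum]
    rw [sum_congr rfl fun z _ => h6 z, sum_add_distrib, ← sum_mul]
    congr 1
    rw [sum_comm]
    exact sum_congr rfl fun a _ => by rw [sum_mul]
  show 0 < ∑ z : Fin 1 → V, ∑ z' : Fin 1 → V,
      Kr G x (fun p a b => (Y p a b : ℝ)) Rw (y z) (y z')
  rw [h5]
  have h7 : 0 < ∑ z, D z := sum_pos (fun z _ => hDpos z) univ_nonempty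
  exact add_pos_of_pos_of_nonneg (mul_pos h7 h7) (sum_nonneg fun a _ => mul_self_nonneg _)

end Pool.Agent.Work.MP_f94384_co.Flag
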