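import Pool.Agent.Work.MP_f94384_co.Flag.P_SYM
import Pool.Agent.Work.MP_f94384_co.Flag.P_SYM1
import Pool.Agent.Work.MP_f94384_co.Flag.P_DEC
import Pool.Agent.Work.MP_f94384_co.Flag.P_NCL
import Pool.Agent.Work.MP_f94384_co.Flag.P_PPC
import Pool.Agent.Work.MP_f94384_co.Flag.P_PP2
import Pool.Agent.Work.MP_f94384_co.Flag.P_ORB

/-!
# Class representatives of the patterns without a clique, and extension by one vertex
-/

set_option autoImplicit false

open Finset

namespace Pool.Agent.Work.MP_f94384_co.Flag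

theorem enc_dec' (N g : ℕ) (hg : g < 2 ^ Chk.tri N) : enc N (dec g) = g := by
  apply Nat.eq_of_testBit_eq
  intro q
  by_cases hq : q < Chk.tri N
  · obtain ⟨i, j, h1, h2, rfl⟩ := Chk.exists_pair N q hq
    rw [Chk.testBit_enc N _ i j h1 h2]
    unfold dec
    rw [if_pos h1]
    rfl
  · have h1 : ∀ x : ℕ, x < 2 ^ Chk.tri N → x.testBit q = false := fun x hx =>
      Nat.testBit_lt_two_pow (lt_of_lt_of_le hx (Nat.pow_le_pow_right (by norm_num) (by omega)))
    rw [h1 _ (Chk.enc_lt N _), h1 _ hg]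

/-- codes are equal if the patterns are -/
theorem code_ext (N g h : ℕ) (hg : g < 2 ^ Chk.tri N) (hh : h < 2 ^ Chk.tri N)
    (H : ∀ a < N, ∀ b < N, dec g a b = dec h a b) : g = h := by
  rw [← enc_dec' N g hg, ← enc_dec' N h hh]
  exact Chk.enc_congr H

theorem pcp_one (N g : ℕ) (hg : g < 2 ^ Chk.tri N) : pcp N 1 g = g := by
  refine code_ext N (pcp N 1 g) g (Chk.enc_lt _ _) hg ?_
  intro a ha b hb
  rw [PP2_dec_pcp 1 g a b ha hb]
  have h1 : ∀ c, px (1 : Equiv.Perm (Fin N)) c = c := by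
    intro c
    unfold px
    split_ifs <;> rfl
  rw [h1, h1]

theorem pcp_mul (N g : ℕ) (π σ : Equiv.Perm (Fin N)) (hg : g < 2 ^ Chk.tri N) :
    pcp N π (pcp N σ g) = pcp N (σ * π) g := (pr_PP2 N g π σ hg).1

theorem NoCl_pcp {s N g : ℕ} (σ : Equiv.Perm (Fin N)) (hg : g < 2 ^ Chk.tri N)
    (h : NoCl s N g) : NoCl s N (pcp N σ g) := by
  intro t ht
  obtain ⟨a, ha, b, hb, hab, hd⟩ := h (t.map σ.toEmbedding) (by rw [Finset.card_map]; exact ht)
  rw [Finset.mem_map] at ha hb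
  obtain ⟨a', ha', rfl⟩ := ha
  obtain ⟨b', hb', rfl⟩ := hb
  refine ⟨a', ha', b', hb', fun e => hab (by rw [e]), ?_⟩
  rw [(pr_PP2 N g σ 1 hg).2.2]
  exact hd

/-- `R` contains a representative of every class of patterns without a clique with `s` elements -/
def Cov (s n : ℕ) (R : List ℕ) : Prop :=
  (∀ g ∈ R, g < 2 ^ Chk.tri n) ∧
  ∀ g < 2 ^ Chk.tri n, NoCl s n g → ∃ g0 ∈ R, ∃ σ : Equiv.Perm (Fin n), pcp n σ g0 = g

theorem cov_zero (s : ℕ) : Cov s 0 [0] := by
  refine ⟨fun g hg => ?_, fun g hg _ => ⟨0, by simp, 1, ?_⟩⟩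
  · simp at hg
    subst hg
    exact Nat.two_pow_pos _
  · have h0 : g = 0 := by
      have : Chk.tri 0 = 0 := rfl
      rw [this] at hg
      omega
    rw [h0]
    exact pcp_one 0 0 (Nat.two_pow_pos _)

/-- the permutation of `n + 1` positions fixing the last one -/
def lift1 {n : ℕ} (σ : Equiv.Perm (Fin n)) : Equiv.Perm (Fin (n + 1)) where
  toFun := Fin.lastCases (Fin.last n) fun i => (σ i).castSucc
  invFun := Fin.lastCases (Fin.last n) fun i => (σ.symm i).castSucc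
  left_inv := by
    intro i
    refine Fin.lastCases ?_ (fun i => ?_) i <;> simp
  right_inv := by
    intro i
    refine Fin.lastCases ?_ (fun i => ?_) i <;> simp

theorem lift1_castSucc {n : ℕ} (σ : Equiv.Perm (Fin n)) (i : Fin n) :
    lift1 σ i.castSucc = (σ i).castSucc := by
  simp [lift1]

theorem px_lift1_lt {n : ℕ} (σ : Equiv.Perm (Fin n)) (a : ℕ) (ha : a < n) :
    px (lift1 σ) a = px σ a := by
  unfold px
  rw [dif_pos (by omega), dif_pos ha]
  show ((lift1 σ) (Fin.castSucc ⟨a, ha⟩) : ℕ) = _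
  rw [lift1_castSucc]
  rfl

theorem px_lift1_last {n : ℕ} (σ : Equiv.Perm (Fin n)) : px (lift1 σ) n = n := by
  unfold px
  rw [dif_pos (by omega)]
  have : (⟨n, by omega⟩ : Fin (n + 1)) = Fin.last n := rfl
  rw [this]
  simp [lift1]

/-- code of the extension of the pattern `g` by a vertex with the mask `m` -/
def extc (n g m : ℕ) : ℕ := g + 2 ^ Chk.tri n * m

theorem extc_lt {n g m : ℕ} (hg : g < 2 ^ Chk.tri n) (hm : m < 2 ^ n) :
    extc n g m < 2 ^ Chk.tri (n + 1) := by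
  unfold extc
  rw [Chk.tri_succ, pow_add]
  calc g + 2 ^ Chk.tri n * m < 2 ^ Chk.tri n + 2 ^ Chk.tri n * m := by omega
    _ = 2 ^ Chk.tri n * (m + 1) := by ring
    _ ≤ _ := Nat.mul_le_mul_left _ hm

theorem dec_extc_lt {n g m a b : ℕ} (hg : g < 2 ^ Chk.tri n) (ha : a < n) (hb : b < n) :
    dec (extc n g m) a b = dec g a b := by
  have key : ∀ i j, i < j → j < n →
      (extc n g m).testBit (j * (j - 1) / 2 + i) = g.testBit (j * (j - 1) / 2 + i) := by
    intro i j hij hj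
    unfold extc
    rw [add_comm, Nat.testBit_two_pow_mul_add _ hg, if_pos]
    have h1 : Chk.tri (j + 1) ≤ Chk.tri n := Chk.tri_mono hj
    rw [Chk.tri_succ] at h1
    have h2 : Chk.tri j = j * (j - 1) / 2 := rfl
    omega
  unfold dec
  rcases lt_trichotomy a b with h | h | h
  · rw [if_pos h, if_pos h, key a b h hb]
  · subst h
    rw [if_neg (lt_irrefl _), if_neg (lt_irrefl _), if_neg (lt_irrefl _), if_neg (lt_irrefl _)]
  · rw [if_neg (by omega), if_pos h, if_neg (by omega), if_pos h, key b a h ha]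

theorem dec_extc_last {n g m a : ℕ} (hg : g < 2 ^ Chk.tri n) (ha : a < n) :
    dec (extc n g m) a n = m.testBit a ∧ dec (extc n g m) n a = m.testBit a := by
  have key : (extc n g m).testBit (n * (n - 1) / 2 + a) = m.testBit a := by
    unfold extc
    have h2 : Chk.tri n = n * (n - 1) / 2 := rfl
    rw [add_comm, Nat.testBit_two_pow_mul_add _ hg, if_neg (by omega), ← h2]
    congr 1
    omega
  constructor
  · unfold dec
    rw [if_pos ha, key]
  · unfold dec
    rw [if_neg (by omega), if_pos ha, key]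

/-- Extension by one vertex. -/
theorem cov_ext {s n : ℕ} {R R' : List ℕ} (hR : Cov s n R) (hR' : ∀ g ∈ R', g < 2 ^ Chk.tri (n + 1))
    (h : ∀ g ∈ R, ∀ m < 2 ^ n, NoCl s (n + 1) (extc n g m) →
      ∃ g1 ∈ R', ∃ σ : Equiv.Perm (Fin (n + 1)), pcp (n + 1) σ g1 = extc n g m) :
    Cov s (n + 1) R' := by
  refine ⟨hR', fun g hg hcl => ?_⟩
  -- the restriction
  set g' := enc n (dec g) with hg'
  have hg'lt : g' < 2 ^ Chk.tri n := Chk.enc_lt _ _
  have hdec' : ∀ a < n, ∀ b < n, dec g' a b = dec g a b := fun a ha b hb =>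
    PP2_dec_enc n (dec g) (fun i j => PP2_dec_symm g i j) (fun i => PP2_dec_irr g i) a b ha hb
  have hcl' : NoCl s n g' := by
    intro t ht
    obtain ⟨a, ha, b, hb, hab, hd⟩ := hcl (t.map Fin.castSuccEmb)
      (by rw [Finset.card_map]; exact ht)
    rw [Finset.mem_map] at ha hb
    obtain ⟨a', ha', rfl⟩ := ha
    obtain ⟨b', hb', rfl⟩ := hb
    refine ⟨a', ha', b', hb', fun e => hab (by rw [e]), ?_⟩
    rw [hdec' a' a'.2 b' b'.2]
    exact hd
  obtain ⟨g0, hg0, σ, hσ⟩ := hR.2 g' hg'lt hcl'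
  have hg0lt := hR.1 g0 hg0
  -- the mask
  set m := Chk.bs (fun a => dec g (px σ.symm a) n) n with hm
  have hmlt : m < 2 ^ n := Chk.bs_lt _ _
  have hq : pcp (n + 1) (lift1 σ) (extc n g0 m) = g := by
    refine code_ext (n + 1) (pcp (n + 1) (lift1 σ) (extc n g0 m)) g (Chk.enc_lt _ _) hg ?_
    intro a ha b hb
    rw [PP2_dec_pcp (lift1 σ) _ a b ha hb]
    have hinv : ∀ c < n, px σ.symm (px σ c) = c := by
      intro c hc
      have h1 : c = ((⟨c, hc⟩ : Fin n) : ℕ) := rfl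
      rw [h1, PP2_px_coe, PP2_px_coe]
      simp
    have hbit : ∀ c < n, m.testBit (px σ c) = dec g c n := by
      intro c hc
      rw [hm, Chk.testBit_bs, hinv c hc]
      have := PP2_px_lt σ c hc
      simp [this]
    rcases Nat.lt_or_ge a n with h1 | h1
    · rw [px_lift1_lt σ a h1]
      rcases Nat.lt_or_ge b n with h2 | h2
      · rw [px_lift1_lt σ b h2, dec_extc_lt hg0lt (PP2_px_lt σ a h1) (PP2_px_lt σ b h2),
          ← PP2_dec_pcp σ g0 a b h1 h2, hσ]
        exact hdec' a h1 b h2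
      · have : b = n := by omega
        subst this
        rw [px_lift1_last, (dec_extc_last hg0lt (PP2_px_lt σ a h1)).1, hbit a h1]
    · have : a = n := by omega
      subst this
      rw [px_lift1_last]
      rcases Nat.lt_or_ge b a with h2 | h2
      · rw [px_lift1_lt σ b h2, (dec_extc_last hg0lt (PP2_px_lt σ b h2)).2, hbit b h2,
          PP2_dec_symm]
      · have : b = a := by omega
        subst this
        rw [px_lift1_last, PP2_dec_irr, PP2_dec_irr]
  have hqlt := extc_lt hg0lt hmlt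
  have hq' : pcp (n + 1) (lift1 σ)⁻¹ g = extc n g0 m := by
    rw [← hq, pcp_mul (n + 1) _ _ _ hqlt, mul_inv_cancel, pcp_one _ _ hqlt]
  have hclq : NoCl s (n + 1) (extc n g0 m) := by
    rw [← hq']
    exact NoCl_pcp _ hg hcl
  obtain ⟨g1, hg1, τ, hτ⟩ := h g0 hg0 m hmlt hclq
  refine ⟨g1, hg1, τ * lift1 σ, ?_⟩
  rw [← pcp_mul (n + 1) g1 (lift1 σ) τ (hR' g1 hg1), hτ, hq]

/-- Representatives suffice. -/
theorem nonPos_of_cov {r N : ℕ} {A : (ℕ → ℕ → Bool) → ℕ → ℕ → ℤ} {R : List ℕ}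
    (hR : Cov (r + 1) N R)
    (h : ∀ g ∈ R, ∀ i j : Fin N, SA N A g i j + SA N A g j i ≤ 0) : NonPos r N A := by
  refine pr_SYM pr_DEC (pr_NCL pr_DEC) (pr_SYM1 pr_DEC (pr_PPC pr_DEC)) r N A ?_
  intro g hg hcl i j
  obtain ⟨g0, hg0, σ, rfl⟩ := hR.2 g hg hcl
  rw [pr_ORB pr_PP2 N g0 A σ i j (hR.1 g0 hg0), pr_ORB pr_PP2 N g0 A σ j i (hR.1 g0 hg0)]
  exact h g0 hg0 _ _

end Pool.Agent.Work.MP_f94384_co.Flag
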